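import Pool.Agent.helper74.FD.SpecG

set_option autoImplicit false

open scoped MatrixGroups ContDiff Topology UpperHalfPlane ComplexConjugate
open UpperHalfPlane MeasureTheory Filter Set

namespace Pool.Agent.FD

open Pool.Agent.RS Pool.Agent.MS
open Pool.Agent.EN (XG MG mkX mkM fl pr)

theorem OME_proof (hXFL : EN.XFL_stmt) (hXTX : EN.XTX_stmt) : OME_stmt := by
  intro Γ U hΓ hU hne hIv
  obtain ⟨-, -, hcX, hoX, hsX, -, -, -, -, -, hmk, -⟩ := hXFL Γ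
  obtain ⟨hX1, hX2, -⟩ := hXTX Γ hΓ
  have hmem : ∀ g, mkX Γ g ∈ mkX Γ '' U ↔ g ∈ U := by
    intro g
    constructor
    · rintro ⟨g', hg', he⟩
      obtain ⟨γ, hγ⟩ := (hmk g' g).mp he
      rw [← hγ]
      exact (hIv.1 γ g').mpr hg'
    · intro h
      exact ⟨g, h, rfl⟩
  obtain ⟨g0, hg0⟩ := hne
  have hs : IsClosed (mkX Γ '' U)ᶜ := (hoX U hU).isClosed_compl
  have ht : IsClosed ({mkX Γ g0} : Set (XG Γ)) := isClosed_singleton
  have hd : Disjoint (mkX Γ '' U)ᶜ {mkX Γ g0} := by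
    rw [Set.disjoint_singleton_right]
    intro h
    exact h ⟨g0, hg0, rfl⟩
  obtain ⟨f, hf0, hf1, hf⟩ := exists_continuous_zero_one_of_isClosed hs ht hd
  have hneg : Continuous fun g : SL(2, ℝ) => -g := by
    refine Continuous.subtype_mk ?_ _
    exact (continuous_subtype_val).neg
  have hgam : ∀ (γ : Γ) (g : SL(2, ℝ)), mkX Γ ((γ : SL(2, ℝ)) * g) = mkX Γ g := by
    intro γ g
    exact ((hmk g ((γ : SL(2, ℝ)) * g)).mpr ⟨γ, rfl⟩).symm
  refine ⟨fun g => max (f (mkX Γ g)) (f (mkX Γ (-g))), ⟨⟨?_, ?_⟩, ?_, ?_, ?_⟩, ?_, ?_⟩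
  · exact (f.continuous.comp hcX).max (f.continuous.comp (hcX.comp hneg))
  · intro γ g
    show max (f (mkX Γ ((γ : SL(2, ℝ)) * g))) (f (mkX Γ (-((γ : SL(2, ℝ)) * g)))) = _
    have h1 : -((γ : SL(2, ℝ)) * g) = (γ : SL(2, ℝ)) * (-g) := by
      rw [mul_neg]
    rw [h1, hgam, hgam]
  · intro g
    show max (f (mkX Γ (-g))) (f (mkX Γ (- -g))) = max (f (mkX Γ g)) (f (mkX Γ (-g)))
    rw [neg_neg, max_comm]
  · intro g
    exact le_max_of_le_left (hf _).1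
  · intro g
    exact max_le (hf _).2 (hf _).2
  · intro g hg
    have h1 : mkX Γ g ∈ (mkX Γ '' U)ᶜ := fun h => hg ((hmem g).mp h)
    have h2 : mkX Γ (-g) ∈ (mkX Γ '' U)ᶜ := fun h => hg ((hIv.2 g).mp ((hmem (-g)).mp h))
    show max (f (mkX Γ g)) (f (mkX Γ (-g))) = 0
    rw [hf0 h1, hf0 h2]
    simp
  · refine ⟨g0, ?_⟩
    have h1 : f (mkX Γ g0) = 1 := hf1 rfl
    exact le_antisymm (max_le (hf _).2 (hf _).2) (by rw [← h1]; exact le_max_left _ _)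

end Pool.Agent.FD
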