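import Pool.Agent.helper62.HF.AllV
import Pool.Agent.helper2.FD.FDD
import Pool.Agent.helper8.FD.DES
import Pool.Agent.helper9.FD.FPC
import Pool.Agent.helper9.FD.SCF
import Pool.Agent.helper9.FD.TRS
import Pool.Agent.helper16.FD.DN
import Pool.Agent.helper25.FD.FLP
import Pool.Agent.helper26.FD.JPO
import Pool.Agent.helper27.FD.FLM
import Pool.Agent.helper28.FD.LCQ
import Pool.Agent.helper29.FD.BM3
import Pool.Agent.helper29.FD.MUL
import Pool.Agent.helper32.FD.FDH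
import Pool.Agent.helper32.FD.OSI
import Pool.Agent.helper38.FD.HMU
import Pool.Agent.helper38.FD.LWQ
import Pool.Agent.helper38.FD.PHL
import Pool.Agent.helper38.FD.SMQ
import Pool.Agent.helper39.FD.DEN
import Pool.Agent.helper48.FD.URY
import Pool.Agent.helper50.FD.FT1
import Pool.Agent.helper50.FD.LOC
import Pool.Agent.helper51.FD.YPO
import Pool.Agent.helper74.FD.OME
import Pool.Agent.helper60.FD.CTF
import Pool.Agent.helper60.FD.QUP
import Pool.Agent.helper63.FD.BM1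
import Pool.Agent.helper63.FD.BM2
import Pool.Agent.helper63.FD.DPM
import Pool.Agent.helper66.FD.PHI
import Pool.Agent.helper71.FD.FPD
import Pool.Agent.helper78.FD.HUP
import Pool.Agent.helper78.FD.KDC
import Pool.Agent.helper79.FD.QUC
import Pool.Agent.helper80.FD.MNF
import Pool.Agent.helper83.FD.STP
import Pool.Agent.helper83.FD.UCN
import Pool.Agent.helper85.FD.QUH
import Pool.Agent.helper87.FD.FT0
import Pool.Agent.helper89.FD.PRF
import Pool.Agent.helper74.FD.DB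
import Pool.Agent.helper95.FD.GAP
import Pool.Agent.helper95.FD.HSM
import Pool.Agent.helper97.FD.PRD

/-!
# MP_07c750, project FD: assembly of the rows
-/

set_option autoImplicit false

namespace Pool.Agent.FD

theorem A_FT0 : FT0_stmt := FT0_proof
theorem A_FT1 : FT1_stmt := FT1_proof A_FT0
theorem A_SCF : SCF_stmt := SCF_proof
theorem A_PRF : PRF_stmt := PRF_proof
theorem A_BM3 : BM3_stmt := BM3_proof A_FT0
theorem A_PRD : PRD_stmt := PRD_proof A_FT0 A_FT1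
theorem A_MUL : MUL_stmt := MUL_proof A_FT0 A_PRD
theorem A_HUP : HUP_stmt := HUP_proof A_FT0
theorem A_GAP : GAP_stmt := GAP_proof A_HUP
theorem A_SMQ : SMQ_stmt := SMQ_proof HMU_proof
theorem A_LWQ : LWQ_stmt := LWQ_proof HMU_proof
theorem A_HSM : HSM_stmt := HSM_proof A_HUP A_GAP HMU_proof A_SMQ A_LWQ PHL_proof
theorem A_QUP : QUP_stmt := QUP_proof A_FT0 A_HUP
theorem A_QUH : QUH_stmt := QUH_proof A_HUP A_HSM A_QUP
theorem A_QUC : QUC_stmt := QUC_proof A_QUH A_FT0 A_PRF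
theorem A_FLM : FLM_stmt := FLM_proof A_FT0 A_FT1
theorem A_LCQ : LCQ_stmt := LCQ_proof A_FT1 A_PRF BM2_proof A_QUC FLP_proof A_FLM PHI_proof
theorem A_OSI : OSI_stmt := OSI_proof A_FT0 A_FT1 BM1_proof A_PRD A_PRF A_LCQ
theorem A_STP : STP_stmt := STP_proof A_FT1 A_SCF A_PRF A_BM3 A_MUL A_OSI
theorem A_FPC : FPC_stmt := FPC_proof A_FT1 A_SCF A_PRF A_STP
theorem A_FPD : FPD_stmt := FPD_proof A_FT0 A_FT1 BM1_proof A_PRF A_FPC

theorem A_DN : DN_stmt := DN_proof EN.A_XDS RS.A_GLC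
theorem A_DB : DB_stmt := DB_proof A_DN RS.A_GLC
theorem A_DEN : DEN_stmt := DEN_proof A_DB RS.A_GLC
theorem A_DES : DES_stmt := DES_proof A_DEN RS.A_GLC
theorem A_TRS : TRS_stmt := TRS_proof A_DEN RS.A_GLC
theorem A_OME : OME_stmt := OME_proof EN.A_XFL EN.A_XTX
theorem A_UCN : UCN_stmt := UCN_proof RS.A_GLC
theorem A_URY : URY_stmt := URY_proof RS.A_GLC MS.A_BXM
theorem A_CTF : CTF_stmt := CTF_proof RS.A_GLC A_URY
theorem A_KDC : KDC_stmt := KDC_proof RS.A_GLC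
theorem A_LOC : LOC_stmt := LOC_proof A_KDC RS.A_GLC
theorem A_MNF : MNF_stmt := MNF_proof A_FPD A_DEN A_DES A_UCN A_CTF (DPM_proof RS.A_GLC) A_LOC (JPO_proof RS.A_GLC) (YPO_proof RS.A_GLC) HV.A_PVG RS.A_GLC
theorem A_FDH : FDH_stmt := FDH_proof A_MNF A_OME MS.A_MU MS.A_STB EN.A_XFL EN.A_XTX QU.A_DOM QU.A_DOB
theorem A_FDD : FDD_stmt := FDD_proof A_TRS EN.A_XFL EN.A_XTX

end Pool.Agent.FD
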