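import Pool.Agent.helper74.FD.SpecG

set_option autoImplicit false

open scoped MatrixGroups ContDiff Topology UpperHalfPlane ComplexConjugate
open UpperHalfPlane MeasureTheory Filter Set

namespace Pool.Agent.FD

open Pool.Agent.RS Pool.Agent.MS
open Pool.Agent.EN (XG MG mkX mkM fl pr)

theorem DB_mat (m : SL(2, ℝ)) (N : ℝ) (hd : m.1 1 1 ≠ 0) : ∃ s t : ℝ, m * lM s * aM t = nM (m.1 0 1 / m.1 1 1) * aM N ∨
    m * lM s * aM t = -(nM (m.1 0 1 / m.1 1 1) * aM N) := by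
  have hdet : m.1 0 0 * m.1 1 1 - m.1 0 1 * m.1 1 0 = 1 := by
    have := m.2
    rwa [Matrix.det_fin_two] at this
  obtain ⟨a, ha⟩ : ∃ a, a = m.1 0 0 := ⟨_, rfl⟩
  obtain ⟨b, hb⟩ : ∃ b, b = m.1 0 1 := ⟨_, rfl⟩
  obtain ⟨c, hc⟩ : ∃ c, c = m.1 1 0 := ⟨_, rfl⟩
  obtain ⟨d, hdd⟩ : ∃ d, d = m.1 1 1 := ⟨_, rfl⟩
  have hm : m.1 = !![a, b; c, d] := by
    ext i j
    fin_cases i <;> fin_cases j <;> simp [ha, hb, hc, hdd]
  rw [← ha, ← hb, ← hc, ← hdd] at hdet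
  rw [← hdd] at hd
  rw [← hb, ← hdd]
  have hdpos : 0 < |d| := abs_pos.mpr hd
  have hE1 : Real.exp ((N + 2 * Real.log |d|) / 2) = Real.exp (N / 2) * |d| := by
    rw [show (N + 2 * Real.log |d|) / 2 = N / 2 + Real.log |d| by ring, Real.exp_add, Real.exp_log hdpos]
  have hE2 : Real.exp (-((N + 2 * Real.log |d|) / 2)) = Real.exp (-(N / 2)) / |d| := by
    rw [show -((N + 2 * Real.log |d|) / 2) = -(N / 2) - Real.log |d| by ring, Real.exp_sub, Real.exp_log hdpos]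
  obtain ⟨E, hE⟩ : ∃ E, E = Real.exp (N / 2) := ⟨_, rfl⟩
  obtain ⟨E', hE'⟩ : ∃ E', E' = Real.exp (-(N / 2)) := ⟨_, rfl⟩
  have key : !![a, b; c, d] * !![1, 0; -c / d, 1] * !![E * |d|, 0; 0, E' / |d|] = !![|d| / d * E, b * E' / |d|; 0, d * E' / |d|] := by
    have h1 : a + b * (-c / d) = 1 / d := by
      field_simp
      linarith
    have h2 : c + d * (-c / d) = 0 := by
      field_simp
      ring
    rw [Matrix.mul_fin_two, Matrix.mul_fin_two]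
    simp only [mul_one, mul_zero, zero_add, add_zero]
    rw [h1, h2]
    ext i j
    fin_cases i <;> fin_cases j <;> simp <;> ring
  refine ⟨-c / d, N + 2 * Real.log |d|, ?_⟩
  rcases lt_or_gt_of_ne hd with h | h
  · right
    have hab : |d| = -d := abs_of_neg h
    apply Subtype.ext
    show m.1 * (lM (-c / d)).1 * (aM (N + 2 * Real.log |d|)).1 = -((nM (b / d)).1 * (aM N).1)
    rw [hm]
    show !![a, b; c, d] * !![1, 0; -c / d, 1] * !![Real.exp ((N + 2 * Real.log |d|) / 2), 0; 0, Real.exp (-((N + 2 * Real.log |d|) / 2))] =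
      -(!![1, b / d; 0, 1] * !![Real.exp (N / 2), 0; 0, Real.exp (-(N / 2))])
    rw [hE1, hE2, ← hE, ← hE', key, Matrix.mul_fin_two, hab]
    ext i j
    fin_cases i <;> fin_cases j <;> simp <;> field_simp
  · left
    have hab : |d| = d := abs_of_pos h
    apply Subtype.ext
    show m.1 * (lM (-c / d)).1 * (aM (N + 2 * Real.log |d|)).1 = (nM (b / d)).1 * (aM N).1
    rw [hm]
    show !![a, b; c, d] * !![1, 0; -c / d, 1] * !![Real.exp ((N + 2 * Real.log |d|) / 2), 0; 0, Real.exp (-((N + 2 * Real.log |d|) / 2))] =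
      !![1, b / d; 0, 1] * !![Real.exp (N / 2), 0; 0, Real.exp (-(N / 2))]
    rw [hE1, hE2, ← hE, ← hE', key, Matrix.mul_fin_two, hab]
    ext i j
    fin_cases i <;> fin_cases j <;> simp <;> field_simp

theorem DB_proof (hDN : DN_stmt) (hGLC : RS.GLC_stmt) : DB_stmt := by
  intro Γ W g hΓ hW hne hIv
  obtain ⟨h, hh⟩ := hne
  obtain ⟨-, hSC, hKc, hcA, hcN, hcL, -, -, -, -, hA, hN, hL, -, -, -, -, hNA, hLA, -⟩ := hGLC
  have : SecondCountableTopology SL(2, ℝ) := hSC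
  obtain ⟨K, hK, hcov⟩ := hΓ.cocompact
  have hK' := hKc K hK
  have h1 : ∀ n : ℕ, ∃ γ : Γ, (γ : SL(2, ℝ)) * (h * aM (-(n : ℝ))) ∈ {x : SL(2, ℝ) | x • I ∈ K} := by
    intro n
    obtain ⟨γ, hγ⟩ := hcov ((h * aM (-(n : ℝ))) • I)
    refine ⟨γ, ?_⟩
    show ((γ : SL(2, ℝ)) * (h * aM (-(n : ℝ)))) • I ∈ K
    rw [mul_smul]
    exact hγ
  choose γ hγ using h1
  obtain ⟨x, hx, σ, hσ, hlim⟩ := hK'.tendsto_subseq hγ
  have hent : ∀ i j : Fin 2, Continuous fun y : SL(2, ℝ) => y.1 i j := fun i j =>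
    (continuous_apply j).comp ((continuous_apply i).comp continuous_subtype_val)
  -- the element moved off the exceptional point
  obtain ⟨γ0, hγ0⟩ : ∃ γ0 : Γ, (x⁻¹ * ((γ0 : SL(2, ℝ)) * g)).1 1 1 ≠ 0 := by
    by_cases hz : (x⁻¹ * g).1 1 1 = 0
    · obtain ⟨γ1, hγ1⟩ := hDN Γ g hΓ
      refine ⟨γ1, ?_⟩
      have h2 : x⁻¹ * ((γ1 : SL(2, ℝ)) * g) = (x⁻¹ * g) * (g⁻¹ * (γ1 : SL(2, ℝ)) * g) := by group
      rw [h2]
      have h3 : ((x⁻¹ * g) * (g⁻¹ * (γ1 : SL(2, ℝ)) * g)).1 1 1 = (x⁻¹ * g).1 1 0 * (g⁻¹ * (γ1 : SL(2, ℝ)) * g).1 0 1 +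
          (x⁻¹ * g).1 1 1 * (g⁻¹ * (γ1 : SL(2, ℝ)) * g).1 1 1 := by
        show ((x⁻¹ * g).1 * (g⁻¹ * (γ1 : SL(2, ℝ)) * g).1) 1 1 = _
        rw [Matrix.mul_apply, Fin.sum_univ_two]
      rw [h3, hz, zero_mul, add_zero]
      refine mul_ne_zero ?_ hγ1
      intro h4
      have h5 := (x⁻¹ * g).2
      rw [Matrix.det_fin_two, h4, hz] at h5
      simp at h5
    · refine ⟨1, ?_⟩
      simpa using hz
  obtain ⟨g', hg'⟩ : ∃ g', g' = (γ0 : SL(2, ℝ)) * g := ⟨_, rfl⟩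
  rw [← hg'] at hγ0
  -- the limits
  have hm : Tendsto (fun k => ((γ (σ k) : SL(2, ℝ)) * (h * aM (-((σ k : ℕ) : ℝ))))⁻¹ * g') atTop (𝓝 (x⁻¹ * g')) :=
    (hlim.inv).mul_const g'
  have hm11 := ((hent 1 1).tendsto _).comp hm
  have hm01 := ((hent 0 1).tendsto _).comp hm
  have hξ := hm01.div hm11 hγ0
  have hexp : Tendsto (fun k => Real.exp (-((σ k : ℕ) : ℝ))) atTop (𝓝 0) :=
    Real.tendsto_exp_neg_atTop_nhds_zero.comp (tendsto_natCast_atTop_atTop.comp hσ.tendsto_atTop)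
  have h0 := hexp.mul hξ
  rw [zero_mul] at h0
  have hN0 : nM 0 = 1 := by
    apply Subtype.ext
    ext i j
    fin_cases i <;> fin_cases j <;> simp [nM]
  have hW1 : Tendsto (fun k => h * nM (Real.exp (-((σ k : ℕ) : ℝ)) * (((((γ (σ k) : SL(2, ℝ)) * (h * aM (-((σ k : ℕ) : ℝ))))⁻¹ * g').1 0 1) /
      ((((γ (σ k) : SL(2, ℝ)) * (h * aM (-((σ k : ℕ) : ℝ))))⁻¹ * g').1 1 1)))) atTop (𝓝 (h * nM 0)) :=
    ((hcN.tendsto 0).comp h0).const_mul h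
  rw [hN0, mul_one] at hW1
  have e1 := hW1.eventually (hW.mem_nhds hh)
  have e2 := hm11.eventually (isOpen_ne.mem_nhds hγ0)
  obtain ⟨k, hk1, hk2⟩ := (e1.and e2).exists
  obtain ⟨N, hNd⟩ : ∃ N : ℝ, N = ((σ k : ℕ) : ℝ) := ⟨_, rfl⟩
  rw [← hNd] at hk1
  obtain ⟨m, hmd⟩ : ∃ m, m = ((γ (σ k) : SL(2, ℝ)) * (h * aM (-((σ k : ℕ) : ℝ))))⁻¹ * g' := ⟨_, rfl⟩
  have hk2' : m.1 1 1 ≠ 0 := by rw [hmd]; exact hk2
  rw [← hNd] at hmd
  rw [← hmd] at hk1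
  obtain ⟨s, t, hst⟩ := DB_mat m N hk2'
  have hgm : g' = (γ (σ k) : SL(2, ℝ)) * (h * aM (-N)) * m := by
    rw [hmd]; group
  have hNN : aM (-N) * (nM (m.1 0 1 / m.1 1 1) * aM N) = nM (Real.exp (-N) * (m.1 0 1 / m.1 1 1)) := by
    rw [hNA, ← mul_assoc, ← hA]
    have hA0 : aM 0 = 1 := by
      apply Subtype.ext
      ext i j
      fin_cases i <;> fin_cases j <;> simp [aM]
    rw [neg_add_cancel, hA0, one_mul]
  have hfin : g' * lM s * aM t ∈ W := by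
    have h2 : g' * lM s * aM t = (γ (σ k) : SL(2, ℝ)) * (h * (aM (-N) * (m * lM s * aM t))) := by
      rw [hgm]; group
    rw [h2, hIv.1]
    rcases hst with h3 | h3
    · rw [h3, hNN]
      exact hk1
    · rw [h3, mul_neg, mul_neg, hIv.2, hNN]
      exact hk1
  refine ⟨s, t, ?_⟩
  have h6 : g' * lM s * aM t = (γ0 : SL(2, ℝ)) * (g * lM s * aM t) := by
    rw [hg']; group
  rw [h6, hIv.1] at hfin
  exact hfin

end Pool.Agent.FD
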