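import Mathlib

/-!
# MP_07c750 (quantum unique ergodicity, weight 10), project FD: part F, a fractal uncertainty principle; rows `fd:XXX`

THEOREM (FD). Let `ν` be a quantum limit of a closed hyperbolic surface. It is the projection of a flow invariant probability measure `μ` on the unit tangent bundle for which the set of all points whose geodesic is NOT dense has mass at most `1/2`.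
Page with all proofs: /team-store/H8_FD_helper74.md. This file: part F, pure analysis on the line.

RULES. Row `fd:XXX`: file `Pool/Agent/<seat>/FD/XXX.lean`, `import Pool.Agent.helper74.FD.SpecF`, `set_option autoImplicit false`, namespace `Pool.Agent.FD`, auxiliary lemmas prefixed `XXX_`, theorem `XXX_proof : XXX_stmt`
(rows listed in `from` may be used as hypotheses `(h : YYY_stmt)`, in the listed order). No sorry, no straight double quotes, none of the forbidden words of the readme.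
-/

set_option autoImplicit false

open MeasureTheory Filter Set
open scoped ContDiff Topology ComplexConjugate

namespace Pool.Agent.FD

/-- the Fourier transform `∫ f(x) e^(-2 π i x ξ) dx` -/
noncomputable def ft (f : ℝ → ℂ) (ξ : ℝ) : ℂ := ∫ x : ℝ, f x * Complex.exp (((-(2 * Real.pi * x * ξ) : ℝ) : ℂ) * Complex.I)

/-- the inverse Fourier transform `∫ m(ξ) e^(2 π i x ξ) dξ` -/
noncomputable def fti (m : ℝ → ℂ) (x : ℝ) : ℂ := ∫ ξ : ℝ, m ξ * Complex.exp (((2 * Real.pi * x * ξ : ℝ) : ℂ) * Complex.I)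

/-- `X` is porous with the constant `ν` at all scales `≥ L` -/
def Por (ν L : ℝ) (X : Set ℝ) : Prop := ∀ a b : ℝ, L ≤ b - a → ∃ c : ℝ, a ≤ c ∧ c + ν * (b - a) ≤ b ∧ ∀ x ∈ X, ¬ (c ≤ x ∧ x ≤ c + ν * (b - a))

/-- `Y` is porous with the constant `ν` at all scales in `[h, 1]` -/
def PorS (ν h : ℝ) (Y : Set ℝ) : Prop := ∀ a b : ℝ, h ≤ b - a → b - a ≤ 1 → ∃ c : ℝ, a ≤ c ∧ c + ν * (b - a) ≤ b ∧ ∀ x ∈ Y, ¬ (c ≤ x ∧ x ≤ c + ν * (b - a))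

/-- the closed `β`-neighbourhood in the form `X + [-β, β]` -/
def fat (β : ℝ) (X : Set ℝ) : Set ℝ := {y | ∃ x ∈ X, |y - x| ≤ β}

/-- the dilation `s X` -/
def dil (s : ℝ) (X : Set ℝ) : Set ℝ := {y | ∃ x ∈ X, y = s * x}

/-- `X` is bounded -/
def Bd (X : Set ℝ) : Prop := ∃ R : ℝ, ∀ x ∈ X, |x| ≤ R

/-- continuous integrable functions with spectrum in the bounded set `X` -/
structure CX (X : Set ℝ) (f : ℝ → ℂ) : Prop where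
  bd : Bd X
  cont : Continuous f
  int : Integrable f
  sp : ∀ ξ, ξ ∉ X → ft f ξ = 0

/-! ## Basic facts -/

/-- **Row FT0** (short-medium; Mathlib). `ft f ξ = 𝓕 f ξ` and `fti m x = 𝓕⁻ m x` (`Real.fourier_eq'`, `Real.fourierInv_eq'` or similar: `𝓕 f w = ∫ v, exp(-2 π i ⟪v, w⟫) • f v`), `fti m x = ft m (-x)`. (a) `VectorField.norm_fourierIntegral_le..`/dominated convergence. (b) Mathlib's inversion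
(`Continuous.fourierInv_fourier_eq`, `MeasureTheory.Integrable.fourierInv_fourier_eq`). (c) Plancherel for `L¹ ∩ L²`: the proof is in `Pool/Agent/helper27/RX/PLN.lean` (private theorems `PLN_ae`, `PLN_main`; copy them). -/
def FT0_stmt : Prop :=
  (∀ f : ℝ → ℂ, Integrable f → Continuous (ft f) ∧ Continuous (fti f) ∧ (∀ ξ, ‖ft f ξ‖ ≤ ∫ x, ‖f x‖) ∧ ∀ x, ‖fti f x‖ ≤ ∫ ξ, ‖f ξ‖) ∧
  (∀ (f : ℝ → ℂ) (x : ℝ), fti f x = ft f (-x)) ∧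
  (∀ f : ℝ → ℂ, Continuous f → Integrable f → Integrable (ft f) → ∀ x, fti (ft f) x = f x) ∧
  (∀ m : ℝ → ℂ, Continuous m → Integrable m → Integrable (fti m) → ∀ ξ, ft (fti m) ξ = m ξ) ∧
  ∀ f : ℝ → ℂ, Integrable f → MemLp f 2 → Integrable (fun ξ => ‖ft f ξ‖ ^ 2) ∧ ∫ ξ, ‖ft f ξ‖ ^ 2 = ∫ x, ‖f x‖ ^ 2 ∧
    Integrable (fun x => ‖fti f x‖ ^ 2) ∧ ∫ x, ‖fti f x‖ ^ 2 = ∫ ξ, ‖f ξ‖ ^ 2

/-- **Row FT1** (short; from FT0). The transform is continuous (FT0) and vanishes off a bounded set, so it has compact support; inversion; `‖f‖ ≤ ∫ ‖ft f‖`; a bounded integrable function is in `L²`; Plancherel. -/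
def FT1_stmt : Prop := ∀ (X : Set ℝ) (f : ℝ → ℂ), CX X f → Continuous (ft f) ∧ HasCompactSupport (ft f) ∧ Integrable (ft f) ∧ (∀ x, f x = fti (ft f) x) ∧ (∃ M : ℝ, ∀ x, ‖f x‖ ≤ M) ∧
  MemLp f 2 ∧ Integrable (fun x => ‖f x‖ ^ 2) ∧ Integrable (fun ξ => ‖ft f ξ‖ ^ 2) ∧ ∫ ξ, ‖ft f ξ‖ ^ 2 = ∫ x, ‖f x‖ ^ 2

/-- **Row SCF** (short). Substitution `x = y/s`: `ft (f (s ·)) ξ = s⁻¹ ft f (ξ/s)`, and if `ξ ∉ dil s X` then `ξ/s ∉ X`; translation: `ft (f (· + t)) ξ = e^(2 π i t ξ) ft f ξ`; monotonicity in `X` (bounded). `∫ ‖f(s x)‖² = s⁻¹ ∫ ‖f‖²` and the same for a measurable set. -/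
def SCF_stmt : Prop :=
  (∀ (X : Set ℝ) (f : ℝ → ℂ) (s : ℝ), 0 < s → CX X f → CX (dil s X) (fun x => f (s * x))) ∧
  (∀ (X : Set ℝ) (f : ℝ → ℂ) (t : ℝ), CX X f → CX X (fun x => f (x + t))) ∧
  (∀ (X X' : Set ℝ) (f : ℝ → ℂ), X ⊆ X' → Bd X' → CX X f → CX X' f) ∧
  ∀ (f : ℝ → ℂ) (s : ℝ) (S : Set ℝ), 0 < s → ∫ x in {x | s * x ∈ S}, ‖f (s * x)‖ ^ 2 = s⁻¹ * ∫ x in S, ‖f x‖ ^ 2

/-- **Row PRF** (short-medium). (1) The hole `[c, c + ν ℓ]` of `X` shrinks to `[c + β, c + ν ℓ - β]`, of length `≥ (ν/2) ℓ` as `β ≤ ν ℓ/4`. (2) dilation. (3) translation `X + t`. (4) reflection. (5) smaller constant, larger scale, smaller set. (6) boundedness of `fat`, `dil`; `fat β (fat β' X) ⊆ fat (β + β') X`, `dil s (fat β X) ⊆ fat (s β) (dil s X)`. -/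
def PRF_stmt : Prop :=
  (∀ (ν L β : ℝ) (X : Set ℝ), 0 < ν → 0 < L → 0 ≤ β → Por ν L X → Por (ν / 2) (max L (4 * β / ν)) (fat β X)) ∧
  (∀ (ν L s : ℝ) (X : Set ℝ), 0 < s → Por ν L X → Por ν (s * L) (dil s X)) ∧
  (∀ (ν L t : ℝ) (X : Set ℝ), Por ν L X → Por ν L {y | y + t ∈ X}) ∧
  (∀ (ν L : ℝ) (X : Set ℝ), Por ν L X → Por ν L {y | -y ∈ X}) ∧
  (∀ (ν ν' L L' : ℝ) (X X' : Set ℝ), 0 ≤ ν' → ν' ≤ ν → 0 ≤ L → L ≤ L' → X' ⊆ X → Por ν L X → Por ν' L' X') ∧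
  (∀ (β s : ℝ) (X : Set ℝ), Bd X → Bd (fat β X) ∧ Bd (dil s X)) ∧
  (∀ (β β' : ℝ) (X : Set ℝ), fat β (fat β' X) ⊆ fat (β + β') X) ∧
  (∀ (β β' : ℝ) (X X' : Set ℝ), β ≤ β' → X ⊆ X' → fat β X ⊆ fat β' X') ∧
  ∀ (s β : ℝ) (X : Set ℝ), 0 < s → dil s (fat β X) ⊆ fat (s * β) (dil s X)

/-- **Row BM1** (short-medium; bumps, `ContDiffBump`). `κ` smooth, even, `≥ 0`, supported in `[-1/16, 1/16]`, `∫ κ = 1` (`ContDiffBump` centred at `0` is even: `ContDiffBump.neg`/symmetric, normed); `χ(x) = ∫ κ(ξ) cos(2 π x ξ) dξ = fti κ x`; for `|x| ≤ 1`: `cos(2 π x ξ) ≥ cos(π/8) ≥ 9/10`. Decay: integrate by parts twice (`|κ''|` integrable):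
`(2 π x)² |χ(x)| ≤ ∫ |κ''|`, and `|χ| ≤ 1`. -/
def BM1_stmt : Prop := ∃ (κ : ℝ → ℂ) (χ : ℝ → ℝ) (C : ℝ), Continuous κ ∧ (∀ ξ, 1 / 16 < |ξ| → κ ξ = 0) ∧ 0 < ∫ ξ, ‖κ ξ‖ ^ 2 ∧ (∀ x, (χ x : ℂ) = fti κ x) ∧ Continuous χ ∧ Integrable χ ∧
  (∀ x, |χ x| ≤ 1) ∧ (∀ x, |x| ≤ 1 → 9 / 10 ≤ χ x) ∧ ∀ x, |χ x| ≤ C / (1 + x ^ 2)

/-- **Row BM2** (short-medium). `ψ = c · ContDiffBump`, `∫ ψ² = 1`. Three integrations by parts: `|2 π ξ|³ ‖ft ψ ξ‖ ≤ ∫ |ψ'''|`, and `‖ft ψ ξ‖ ≤ ∫ |ψ|`. (Or: `ψ` is a Schwartz function, so `𝓕 ψ` is a Schwartz function.) -/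
def BM2_stmt : Prop := ∀ σ : ℝ, 0 < σ → ∃ (ψ : ℝ → ℝ) (C : ℝ), Continuous ψ ∧ (∀ x, σ ≤ |x| → ψ x = 0) ∧ ∫ x, ψ x ^ 2 = 1 ∧ ∀ ξ, ‖ft (fun x => (ψ x : ℂ)) ξ‖ ≤ C / (1 + |ξ|) ^ 3

/-- **Row BM3** (medium; from FT0). `k` real, smooth, even, supported in `[-1/2, 1/2]`, `∫ k² = 1`, `h = fti k` real, continuous, `O(1/(1+x²))`, `φ = h²`, `∫ φ = 1` by Plancherel; `K(ξ) = ∫ k(η) k(ξ - η) dη` continuous, supported in `[-1, 1]`, and `fti K = (fti k)²` (Fubini; or the Mathlib theorem on the Fourier transform of a convolution). -/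
def BM3_stmt : Prop := ∃ (K : ℝ → ℂ) (φ : ℝ → ℝ) (C : ℝ), Continuous K ∧ (∀ ξ, 1 < |ξ| → K ξ = 0) ∧ (∀ x, (φ x : ℂ) = fti K x) ∧ Continuous φ ∧ (∀ x, 0 ≤ φ x) ∧ (∀ x, φ x ≤ C / (1 + x ^ 2)) ∧ Integrable φ ∧ ∫ x, φ x = 1

/-- **Row PRD** (medium; from FT0, FT1). Products: `h = fti k`, `k` continuous, `k = 0` off `[-B, B]`. `f h(· - t)` is continuous and integrable (`h` is bounded). `f x = ∫ ft f η e^(2 π i x η) dη`, so by Fubini (`h` is integrable by hypothesis) `ft (f h(· - t)) ξ = ∫ ft f η · (∫ h(x - t) e^(-2 π i x (ξ - η)) dx) dη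
= ∫ ft f η · e^(-2 π i t (ξ - η)) k(ξ - η) dη` (`ft h = k`, FT0), which is `0` if `|ξ - η| > B` for all `η ∈ X`. -/
def PRD_stmt : Prop := ∀ (X : Set ℝ) (f k : ℝ → ℂ) (B t : ℝ), 0 ≤ B → CX X f → Continuous k → (∀ ξ, B < |ξ| → k ξ = 0) → Integrable (fti k) → CX (fat B X) (fun x => f x * fti k (x - t))

/-- the smooth cut-off `x ↦ ∫_S B φ(B (x - t)) dt` -/
noncomputable def cut (φ : ℝ → ℝ) (B : ℝ) (S : Set ℝ) (x : ℝ) : ℝ := ∫ t in S, B * φ (B * (x - t))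

/-- **Row MUL** (medium; from FT0, PRD). `φ ≥ 0`, `∫ φ = 1`, `φ = fti K`, `K = 0` off `[-1,1]`. `∫ B φ(B(x-t)) dt = 1`, so `0 ≤ cut ≤ 1`. Continuity at `x0`: dominated convergence, for `|x - x0| ≤ 1` the integrand is at most the integrable function `t ↦ B C'/(1 + (x0-t)²)` of `t`
(`1 + B²(x-t)² ≥ c (1 + (x0 - t)²)`).
Spectrum: `ft (cut · f) ξ = ∫_S ft (x ↦ f x · B φ(B(x-t))) ξ dt` (Fubini, `∫∫ ‖f x‖ B φ(B(x-t)) dt dx ≤ ∫ ‖f‖`), and each of them is `0` for `ξ ∉ fat B X` (PRD with `k ξ = K(ξ/B)`, `fti k x = B fti K (B x)`). Bounds: `1 - cut x = ∫_(Sᶜ) B φ(B(x-t)) dt`, substitution `y = B (x - t)`. -/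
def MUL_stmt : Prop := ∀ (K : ℝ → ℂ) (φ : ℝ → ℝ) (C : ℝ), Continuous K → (∀ ξ, 1 < |ξ| → K ξ = 0) → (∀ x, (φ x : ℂ) = fti K x) → Continuous φ → (∀ x, 0 ≤ φ x) → (∀ x, φ x ≤ C / (1 + x ^ 2)) → Integrable φ → ∫ x, φ x = 1 →
  ∀ (B : ℝ) (S : Set ℝ), 0 < B → MeasurableSet S → Continuous (cut φ B S) ∧ (∀ x, 0 ≤ cut φ B S x ∧ cut φ B S x ≤ 1) ∧
    (∀ (X : Set ℝ) (f : ℝ → ℂ), CX X f → CX (fat B X) (fun x => ((cut φ B S x : ℝ) : ℂ) * f x)) ∧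
    (∀ x d : ℝ, 0 ≤ d → (∀ t, t ∉ S → d ≤ |x - t|) → 1 - ∫ y in {y : ℝ | B * d ≤ |y|}, φ y ≤ cut φ B S x) ∧
    ∀ x d : ℝ, 0 ≤ d → (∀ t ∈ S, d ≤ |x - t|) → cut φ B S x ≤ ∫ y in {y : ℝ | B * d ≤ |y|}, φ y

/-! ## Quantitative unique continuation -/

/-- the Cauchy transform `(i/2π) ∫ m(ξ)/(z + ξ) dξ` -/
noncomputable def Hf (m : ℝ → ℂ) (z : ℂ) : ℂ := Complex.I / (2 * Real.pi) * ∫ ξ : ℝ, m ξ / (z + ξ)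

/-- **Row HUP** (medium; from FT0). Everything is absolutely integrable (`m` continuous with compact support). (i) Fubini: `∫_0^∞ fti m s e^(2 π i s z) ds = ∫ m ξ ∫_0^∞ e^(2 π i s (z + ξ)) ds dξ`, inner integral `= -1/(2 π i (z+ξ)) = i/(2 π (z+ξ))`. (ii) From (i): `‖fti m s‖ ≤ ∫ ‖m‖ ≤ 1`; on `[0,a]` Cauchy-Schwarz:
`∫_0^a ‖fti m‖ ≤ √a √(∫_0^a ‖fti m‖²)`; on `[a,∞)` `∫ e^(-2 π s y) ds`. (iii) `1/(z+ξ) = 1/z - ξ/(z (z+ξ))` and `‖z + ξ‖ ≥ Im z ≥ 1`: `‖∫ m/(z+ξ)‖ ≤ ‖z‖⁻¹ ∫ ‖m‖ (1 + |ξ|)`. (iv) trivial. (v) differentiation under the integral (`hasDerivAt_integral_of_dominated_loc_of_deriv_le`; only the `ξ` with `m ξ ≠ 0` matter). -/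
def HUP_stmt : Prop := ∀ (m : ℝ → ℂ), Continuous m → HasCompactSupport m → ∫ ξ, ‖m ξ‖ * (1 + |ξ|) ≤ 1 →
  (∀ z : ℂ, 0 < z.im → Hf m z = ∫ s in Ioi (0 : ℝ), fti m s * Complex.exp (2 * Real.pi * s * z * Complex.I)) ∧
  (∀ (z : ℂ) (a : ℝ), 0 < z.im → 0 < a → ‖Hf m z‖ ≤ Real.sqrt (a * ∫ s in (0 : ℝ)..a, ‖fti m s‖ ^ 2) + Real.exp (-(2 * Real.pi * a * z.im)) / (2 * Real.pi * z.im)) ∧
  (∀ z : ℂ, 1 ≤ z.im → ‖Hf m z‖ ≤ 1 / (2 * Real.pi * ‖z‖)) ∧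
  (∀ (z : ℂ) (d : ℝ), 0 < d → (∀ ξ : ℝ, m ξ ≠ 0 → d ≤ ‖z + ξ‖) → ‖Hf m z‖ ≤ 1 / (2 * Real.pi * d)) ∧
  ∀ (z : ℂ) (d : ℝ), 0 < d → (∀ ξ : ℝ, m ξ ≠ 0 → d ≤ ‖z + ξ‖) → DifferentiableAt ℂ (Hf m) z

/-- **Row GAP** (medium; from HUP). `z0 = x + i`, `R = ρ/4`. `P ζ = ∏_(j<4) Hf m (z0 + i^j ζ)` for `‖ζ‖ ≤ R`. All points `z = z0 + i^j ζ` satisfy `‖z - c‖ ≤ ρ/8 + 1 + ρ/4 ≤ ρ/2`, so `‖z + ξ‖ ≥ ρ/2` whenever `m ξ ≠ 0` (`-ξ ∉ [c-ρ, c+ρ]`): `P` is differentiable on a neighbourhood (`‖ζ‖ < ρ/4 + 1/8`.. or use `DiffContOnCl`) and every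
factor is `≤ 1/(π ρ) ≤ 1` (HUP (iv)). If `‖ζ‖ = R` then one of the four numbers `i^j ζ` has imaginary part `≥ R/√2`, its factor is `≤ e1 + e^(-2 π a R/√2)/(2 π R/√2) ≤ e1 + e^(-π a ρ/3) ≤ 2 e^(-π a ρ/3)` (HUP (ii); `Im z ≥ R/√2 ≥ √2`, `2/(4 √2) ≥ 1/3`). Maximum modulus principle (`Complex.norm_le_of_forall_mem_frontier_norm_le`):
`‖Hf m z0‖⁴ = ‖P 0‖ ≤ 2 e^(-π a ρ/3)`, so `‖Hf m z0‖ ≤ 2^(1/4) e^(-π a ρ/12)`. -/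
def GAP_stmt : Prop := ∀ (m : ℝ → ℂ) (a c ρ x : ℝ), Continuous m → HasCompactSupport m → ∫ ξ, ‖m ξ‖ * (1 + |ξ|) ≤ 1 → 0 < a → 8 ≤ ρ → (∀ ξ, m ξ ≠ 0 → ¬ (c - ρ ≤ -ξ ∧ -ξ ≤ c + ρ)) →
  Real.sqrt (a * ∫ s in (0 : ℝ)..a, ‖fti m s‖ ^ 2) ≤ Real.exp (-(Real.pi * a * ρ / 3)) → |x - c| ≤ ρ / 8 → ‖Hf m (x + Complex.I)‖ ≤ 2 * Real.exp (-(Real.pi * a * ρ / 12))

/-- the holomorphic function whose real part is the harmonic measure of `[A, B]` -/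
noncomputable def qh (A B : ℝ) (z : ℂ) : ℂ := (Complex.log (z - B) - Complex.log (z - A)) / (Real.pi * Complex.I)

/-- **Row HMU** (medium). `Re (qh A B z) = (arg (z-B) - arg (z-A))/π` (`(log w)/(i) = arg w - i log|w|`). For `Im z > 0` the arguments are in `(0, π)`, and `θ = arg(z-B) - arg(z-A)` satisfies `‖z-A‖ ‖z-B‖ sin θ = Im ((z-B) conj(z-A)) = (B-A) Im z > 0`, `θ ∈ (-π, π)`, so `θ ∈ (0, π)`. `θ ≥ sin θ`. If `Re z ≤ A` or `Re z ≥ B` then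
`‖z-A‖ ‖z-B‖ cos θ = Re ((z-B) conj(z-A)) = (x-A)(x-B) + y² > 0`, so `θ < π/2` and `θ ≤ (π/2) sin θ` (`Real.mul_le_sin`). Differentiability: `Complex.log` on the slit plane. -/
def HMU_stmt : Prop := ∀ (A B : ℝ) (z : ℂ), A < B → 0 < z.im → DifferentiableAt ℂ (qh A B) z ∧ 0 ≤ (qh A B z).re ∧ (qh A B z).re ≤ 1 ∧
  (B - A) * z.im / (Real.pi * (‖z - A‖ * ‖z - B‖)) ≤ (qh A B z).re ∧ (z.re ≤ A ∨ B ≤ z.re → (qh A B z).re ≤ (B - A) * z.im / (2 * (‖z - A‖ * ‖z - B‖)))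

/-- gaps of relative size `ν` in `n` dyadic intervals: `[c i - ρ i, c i + ρ i] ⊆ [2^(k+2i), 2^(k+2i+1)]` -/
structure Gaps (ν : ℝ) (k n : ℕ) (c ρ : ℕ → ℝ) : Prop where
  size : ∀ i < n, ρ i = ν * 2 ^ (k + 2 * i) / 2
  left : ∀ i < n, (2 : ℝ) ^ (k + 2 * i) ≤ c i - ρ i
  right : ∀ i < n, c i + ρ i ≤ 2 ^ (k + 2 * i + 1)

/-- the sum of the harmonic measures of the middle parts of the gaps with the weights `ρ i` -/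
noncomputable def sq (n : ℕ) (c ρ : ℕ → ℝ) (z : ℂ) : ℂ := ∑ i ∈ Finset.range n, (ρ i : ℂ) * qh (c i - ρ i / 16) (c i + ρ i / 16) z

/-- **Row SMQ** (medium; from HMU). `z = x + i`, `A_i = c_i - ρ_i/16`, `B_i = c_i + ρ_i/16`, `u_i = Re qh`, `K_i = 2^(k+2i)`, `ρ_i = ν K_i/2`, `d_i` = the distance of `x` to `[A_i, B_i]`. If `x ∉ (A_i, B_i)`: `ρ_i u_i ≤ ρ_i (ρ_i/8)/(2 d_i²) = ρ_i²/(16 d_i²)`. Call `i` left-far if `x ≤ K_i/2`: `d_i ≥ K_i/2`, so `ρ_i u_i ≤ ν²/16`.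
Call `i` right-far if `x ≥ 4 K_i`: `d_i ≥ x - 2K_i ≥ x/2`, `ρ_i u_i ≤ ν² K_i²/(16 x²)`; these `K_i` are different numbers `K_0 4^i ≤ x/4`, so the sum over right-far `i` is `≤ (ν²/16) (1/16) (1 + 1/16 + ..) ≤ 1`. If `i` is neither, then `x/4 < K_i < 2x`: at most two values of `i` (ratio `4` between consecutive `K_i`, `2x/(x/4) = 8 < 16`).
First case: no `i < n` with `|x - c_i| ≤ ρ_i/8`: then `d_i ≥ ρ_i/16` and `ρ_i u_i ≤ 16` for the (at most two) others: total `≤ 32 + 1 + n ν²/16`. Second case: `|x - c_i| ≤ ρ_i/8` for some `i < n`: `x ∈ [K_i, 2K_i]`; `j > i`: `K_j ≥ 4 K_i ≥ 2x` is left-far, `j < i`: `4 K_j ≤ K_i ≤ x` right-far; `u_i ≤ 1`: total `≤ ρ_i + 1 + n ν²/16`. -/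
def SMQ_stmt : Prop := ∀ (ν : ℝ) (k n : ℕ) (c ρ : ℕ → ℝ) (x : ℝ), 0 < ν → ν ≤ 1 → Gaps ν k n c ρ →
  (∃ i < n, |x - c i| ≤ ρ i / 8 ∧ (sq n c ρ (x + Complex.I)).re ≤ ρ i + 34 + n * ν ^ 2 / 16) ∨
  ((∀ i < n, ρ i / 8 < |x - c i|) ∧ (sq n c ρ (x + Complex.I)).re ≤ 34 + n * ν ^ 2 / 16)

/-- **Row LWQ** (short; from HMU). `z = x + 256 i`, `|x| + 256 ≤ 2^k ≤ K_i`: `‖z - A_i‖, ‖z - B_i‖ ≤ |x| + 256 + 2 K_i ≤ 3 K_i ≤ 4 K_i`, so `ρ_i u_i ≥ ρ_i (ρ_i/8) 256/(16 π K_i²) = ν²/(2 π) · .. `: precisely `(ν²/4)(1/8) 256/(16 π) = ν²/(2 π)`, and `1/(2 π) ≥ 3/20`. -/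
def LWQ_stmt : Prop := ∀ (ν : ℝ) (k n : ℕ) (c ρ : ℕ → ℝ) (x : ℝ), 0 < ν → ν ≤ 1 → Gaps ν k n c ρ → |x| + 256 ≤ 2 ^ k → n * ν ^ 2 * (3 / 20) ≤ (sq n c ρ (x + 256 * Complex.I)).re

/-- **Row PHL** (short-medium). Phragmen-Lindelof for a bounded holomorphic function on the half plane `Im z ≥ 1` (Mathlib: `PhragmenLindelof.right_half_plane_of_bounded_on_real` or `PhragmenLindelof.horizontal_strip`...; rotate: `F w = G (i w + i)` on `Re w ≥ 0`). -/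
def PHL_stmt : Prop := ∀ (G : ℂ → ℂ) (C M : ℝ), (∀ z : ℂ, 0 < z.im → DifferentiableAt ℂ G z) → (∀ z : ℂ, 1 ≤ z.im → ‖G z‖ ≤ C) → (∀ x : ℝ, ‖G (x + Complex.I)‖ ≤ M) → ∀ z : ℂ, 1 ≤ z.im → ‖G z‖ ≤ M

/-- **Row HSM** (medium; from HUP, GAP, HMU, SMQ, LWQ, PHL). `a' = π a/12`, `G z = Hf m z · exp (a' · sq n c ρ z)`: differentiable for `Im z > 0`, bounded for `Im z ≥ 1` (`‖Hf m z‖ ≤ 1/(2 π)`, `Re sq ≤ Σ ρ_i`). On `z = x + i`: by SMQ either `‖Hf m z‖ ≤ 2 e^(-a' ρ_i)` (GAP: `√.. ≤ e^(-π a ρ_i/3)` for all `i < n`) and `Re sq ≤ ρ_i + 34 + n ν²/16`, or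
`‖Hf m z‖ ≤ 1` and `Re sq ≤ 34 + n ν²/16`: `‖G‖ ≤ M = 2 exp (a' (34 + n ν²/16))`. PHL at `z = x0 + 256 i` and LWQ: `‖Hf m z‖ ≤ M exp (-a' n ν² 3/20)`, and `3/20 - 1/16 ≥ 2/25`. -/
def HSM_stmt : Prop := ∀ (m : ℝ → ℂ) (a ν x : ℝ) (k n : ℕ) (c ρ : ℕ → ℝ), Continuous m → HasCompactSupport m → ∫ ξ, ‖m ξ‖ * (1 + |ξ|) ≤ 1 → 0 < a → 0 < ν → ν ≤ 1 → Gaps ν k n c ρ → 8 ≤ ν * 2 ^ k / 2 →
  (∀ i < n, ∀ ξ, m ξ ≠ 0 → ¬ (c i - ρ i ≤ -ξ ∧ -ξ ≤ c i + ρ i)) →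
  (∀ i < n, Real.sqrt (a * ∫ s in (0 : ℝ)..a, ‖fti m s‖ ^ 2) ≤ Real.exp (-(Real.pi * a * ρ i / 3))) → |x| + 256 ≤ 2 ^ k →
    ‖Hf m (x + 256 * Complex.I)‖ ≤ 2 * Real.exp (Real.pi * a / 12 * (34 - n * ν ^ 2 * (2 / 25)))

/-- **Row QUP** (medium; from FT0, HUP). Plancherel (FT0) for `G s = 1_(s>0) fti m s e^(-512 π s)` (bounded by `1_(s>0) e^(-512 π s)`, measurable: in `L¹ ∩ L²`); by HUP (i) `fti G x = Hf m (x + 256 i)`. So `∫ ‖Hf m (x + 256 i)‖² dx = ∫_0^∞ ‖fti m s‖² e^(-1024 π s) ds ≥ e^(-2048 π) ∫_0^2 ‖fti m‖²`. -/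
def QUP_stmt : Prop := ∀ (m : ℝ → ℂ), Continuous m → HasCompactSupport m → ∫ ξ, ‖m ξ‖ * (1 + |ξ|) ≤ 1 → Integrable (fun x : ℝ => ‖Hf m (x + 256 * Complex.I)‖ ^ 2) ∧
  ∫ s in (0 : ℝ)..2, ‖fti m s‖ ^ 2 ≤ Real.exp (2048 * Real.pi) * ∫ x : ℝ, ‖Hf m (x + 256 * Complex.I)‖ ^ 2

/-- **Row QUH** (medium; from HUP, HSM, QUP). `E = e^(2048 π)`. Choose `X0 ≥ 1` with `2 E/X0 ≤ η/2`, then `k` with `2^k ≥ X0 + 256`, `2^k ≥ L`, `ν 2^k ≥ 16`, then `n` with `E · 2 X0 · 4 exp (2 (π a/12) (34 - n ν² 2/25)) ≤ η/2`, then `κ0 > 0` with `√(a κ0) ≤ e^(-π a ρ/3)`, `ρ = ν 2^(k+2n)/2` (`≥` all `ρ_i`). `Por ν L S` for the interval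
`[-2^(j+1), -2^j]`, `j = k + 2i` (length `2^j ≥ L`) gives a hole `[c', c' + ν 2^j]`; `c_i = -(c' + ν 2^j/2)`, `ρ_i = ν 2^j/2`: `Gaps`. HSM: `‖Hf m (x + 256 i)‖ ≤ 2 exp (..)` for `|x| ≤ X0`; HUP (iii): `≤ 1/|x|` for `|x| ≥ X0`. So `∫ ‖Hf m (x + 256 i)‖² dx ≤ 2 X0 · 4 exp (2 ..) + 2/X0`, and QUP. -/
def QUH_stmt : Prop := ∀ ν L a η : ℝ, 0 < ν → ν ≤ 1 → 0 < a → 0 < η → ∃ κ0 : ℝ, 0 < κ0 ∧ ∀ (S : Set ℝ) (m : ℝ → ℂ), Por ν L S → Continuous m → HasCompactSupport m → (∀ ξ, m ξ ≠ 0 → ξ ∈ S) →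
  ∫ ξ, ‖m ξ‖ * (1 + |ξ|) ≤ 1 → ∫ s in (0 : ℝ)..a, ‖fti m s‖ ^ 2 ≤ κ0 → ∫ s in (0 : ℝ)..2, ‖fti m s‖ ^ 2 ≤ η

/-- **Row QUC** (short-medium; from QUH, FT0, PRF). Both signs: QUH for `m` and for `ξ ↦ m (-ξ)`, `fti (m (-·)) s = fti m (-s)`, `S` replaced by `-S` (PRF). Let `N = ∫ ‖m‖ (1+|ξ|)`. If `N = 0` then `m = 0`, `fti m = 0`. Let `N > 0`, `m' = m/N`, `κ0` from QUH for `η/2`. If `∫_(-a)^a ‖fti m'‖² ≤ κ0` then `∫_(-2)^2 ‖fti m'‖² ≤ η`; otherwise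
`∫_(-2)^2 ‖fti m'‖² ≤ 4 ≤ (4/κ0) ∫_(-a)^a ‖fti m'‖²`. Multiply by `N²`. `C = 4/κ0`. -/
def QUC_stmt : Prop := ∀ ν L a η : ℝ, 0 < ν → ν ≤ 1 → 0 < a → 0 < η → ∃ C : ℝ, 0 < C ∧ ∀ (S : Set ℝ) (m : ℝ → ℂ), Por ν L S → Continuous m → HasCompactSupport m → (∀ ξ, m ξ ≠ 0 → ξ ∈ S) →
  ∫ s in (-2 : ℝ)..2, ‖fti m s‖ ^ 2 ≤ C * (∫ s in (-a)..a, ‖fti m s‖ ^ 2) + η * (∫ ξ, ‖m ξ‖ * (1 + |ξ|)) ^ 2

/-! ## The one-scale inequality -/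

/-- the part of `F` with frequencies near `l` -/
noncomputable def Fl (F : ℝ → ℂ) (ψ : ℝ → ℝ) (l : ℤ) (x : ℝ) : ℂ := ∫ y : ℝ, F (x - y) * (ψ y : ℂ) * Complex.exp (((2 * Real.pi * l * y : ℝ) : ℂ) * Complex.I)

/-- **Row FLP** (medium). Parseval on the circle of length `1` for the function `y ↦ F (x - y) ψ y`, continuous with support in `[-1/4, 1/4]` (Mathlib: `tsum_sq_fourierCoeffOn`, `hasSum_sq_fourierCoeffOn` on `[-1/2, 1/2]`; the coefficient of index `-l`). -/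
def FLP_stmt : Prop := ∀ (F : ℝ → ℂ) (ψ : ℝ → ℝ) (x : ℝ), Continuous F → Continuous ψ → (∀ y, 1 / 4 ≤ |y| → ψ y = 0) → HasSum (fun l : ℤ => ‖Fl F ψ l x‖ ^ 2) (∫ y : ℝ, ‖F (x - y)‖ ^ 2 * ψ y ^ 2)

/-- the weight `m` belonging to `Fl F ψ l (· + p)` shifted to the frequency `0` -/
noncomputable def ml (F : ℝ → ℂ) (ψ : ℝ → ℝ) (l : ℤ) (p ξ : ℝ) : ℂ :=
  ft F (ξ + l) * ft (fun x => (ψ x : ℂ)) ξ * Complex.exp (((2 * Real.pi * p * (ξ + l) : ℝ) : ℂ) * Complex.I)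

/-- **Row FLM** (medium; from FT0, FT1). `F = fti (ft F)` (FT1), so `Fl F ψ l x = ∫ ft F ζ e^(2 π i x ζ) (∫ ψ y e^(-2 π i y (ζ - l)) dy) dζ = ∫ ft F ζ · ft ψ (ζ - l) e^(2 π i x ζ) dζ` (Fubini); put `ζ = ξ + l`, `x = s + p`: `Fl F ψ l (s + p) = e^(2 π i l s) fti (ml F ψ l p) s`. `ml` is continuous (FT0) and has compact support (FT1). `ml ≠ 0` implies `ξ + l ∈ X`.
Weights: `∫ ‖ml‖ (1+|ξ|) ≤ (∫ ‖ft F (ξ+l)‖²/(1+ξ²) dξ)^(1/2) (∫ ‖ft ψ ξ‖² (1+|ξ|)² (1+ξ²) dξ)^(1/2)` and the last integral is `≤ C² ∫ (1+|ξ|)^(-2) = 2 C²`. `Σ_l 1/(1+(ζ-l)²) ≤ 8` (at most two `l` with `|ζ - l| < 1`, ...), so for every finite set `Q` of `l`: `Σ_(l∈Q) ∫ ‖ft F (ξ+l)‖²/(1+ξ²) dξ ≤ 8 ∫ ‖ft F‖² = 8 ∫ ‖F‖²` (FT1). -/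
def FLM_stmt : Prop := ∀ (ψ : ℝ → ℝ) (C σ : ℝ), Continuous ψ → (∀ x, σ ≤ |x| → ψ x = 0) → (∀ ξ, ‖ft (fun x => (ψ x : ℂ)) ξ‖ ≤ C / (1 + |ξ|) ^ 3) → ∀ (X : Set ℝ) (F : ℝ → ℂ) (p : ℝ), CX X F →
  (∀ l : ℤ, Continuous (ml F ψ l p) ∧ HasCompactSupport (ml F ψ l p) ∧ (∀ ξ, ml F ψ l p ξ ≠ 0 → ξ + l ∈ X) ∧ ∀ s, ‖fti (ml F ψ l p) s‖ = ‖Fl F ψ l (s + p)‖) ∧
  ∀ Q : Finset ℤ, ∑ l ∈ Q, (∫ ξ, ‖ml F ψ l p ξ‖ * (1 + |ξ|)) ^ 2 ≤ 16 * C ^ 2 * ∫ x, ‖F x‖ ^ 2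

/-- **Row PHI** (short-medium). Fubini for the continuous functions `F`, `ψ` (`ψ = 0` for `|y| ≥ σ`): `∫_α^β ∫ ‖F (x-y)‖² ψ(y)² dy dx = ∫ ψ(y)² (∫_(α-y)^(β-y) ‖F‖²) dy`, and for `|y| < σ` the inner integral is between `∫_(α+σ)^(β-σ)` and `∫_(α-σ)^(β+σ)`; `∫ ψ² = 1`. -/
def PHI_stmt : Prop := ∀ (F : ℝ → ℂ) (ψ : ℝ → ℝ) (σ α β : ℝ), Continuous F → Continuous ψ → 0 < σ → (∀ y, σ ≤ |y| → ψ y = 0) → ∫ y, ψ y ^ 2 = 1 → α ≤ β →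
  Continuous (fun x => ∫ y : ℝ, ‖F (x - y)‖ ^ 2 * ψ y ^ 2) ∧ ∫ x in α..β, (∫ y : ℝ, ‖F (x - y)‖ ^ 2 * ψ y ^ 2) ≤ ∫ x in (α - σ)..(β + σ), ‖F x‖ ^ 2 ∧
  (α + σ ≤ β - σ → ∫ x in (α + σ)..(β - σ), ‖F x‖ ^ 2 ≤ ∫ x in α..β, ∫ y : ℝ, ‖F (x - y)‖ ^ 2 * ψ y ^ 2)

/-- **Row LCQ** (medium; from FT1, PRF, BM2, QUC, FLP, FLM, PHI). `σ = ν/8`, `ψ`, `C2` from BM2; `a = 3ν/8`; QUC for `ν/2`, `L = 1/(4ν)`, `a`, and `η' = η/(16 C2² + 1)`: `C`. For each `l`: `{ξ | ξ + l ∈ X}` is `Por (ν/2) (1/(4ν))` (PRF), so `∫_(-2)^2 ‖Fl F ψ l (s+p)‖² ds ≤ C ∫_(-a)^a ‖Fl F ψ l (s+p)‖² ds + η' N_l²`, `N_l = ∫ ‖ml‖ (1+|ξ|)` (FLM).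
With `Φ x = ∫ ‖F(x-y)‖² ψ(y)² dy` and FLP: for a finite set `Q` of `l`: `Σ_Q ∫_(-2)^2 ‖Fl (s+p)‖² ≤ C Σ_Q ∫_(-a)^a ‖Fl (s+p)‖² + η' Σ_Q N_l² ≤ C ∫_(-a)^a Φ(s+p) ds + η ∫ ‖F‖²` (finite partial sums are `≤ Φ`); let `Q` grow: the left side tends to `∫_(-2)^2 Φ(s+p) ds`
(monotone or dominated convergence, partial sums `≤ Φ`, `Φ` continuous; `Fl` is continuous: `‖Fl F ψ l (s+p)‖ = ‖fti (ml ..) s‖`). PHI with `[p-2, p+2]`, `[p-a, p+a]`: `∫_(-2)^2 Φ(s+p) ds ≥ ∫_(p-2+σ)^(p+2-σ) ‖F‖² ≥ ∫_(p-1)^(p+1) ‖F‖²`, `∫_(-a)^a Φ(s+p) ds ≤ ∫_(p-a-σ)^(p+a+σ) ‖F‖²`, `a + σ = ν/2`. -/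
def LCQ_stmt : Prop := ∀ ν η : ℝ, 0 < ν → ν ≤ 1 / 4 → 0 < η → ∃ C : ℝ, 0 < C ∧ ∀ (X : Set ℝ) (F : ℝ → ℂ) (p : ℝ), Por (ν / 2) (1 / (4 * ν)) X → CX X F →
  ∫ x in (p - 1)..(p + 1), ‖F x‖ ^ 2 ≤ C * (∫ x in (p - ν / 2)..(p + ν / 2), ‖F x‖ ^ 2) + η * ∫ x, ‖F x‖ ^ 2

/-- **Row OSI** (medium; from FT0, FT1, BM1, PRD, PRF, LCQ). `κ`, `χ`, `C1` from BM1. `Σ_j χ(x-j)² ≤ C1²·8 =: C2` (finite sums). For `j`: `F_j x = f x · χ(x - j)` is in `CX (fat (1/16) X)` (PRD; `fti κ = χ` integrable), which is `Por (ν/2) (max 1 (1/(4ν)))` by PRF (`4 (1/16)/ν = 1/(4ν) ≥ 1`). LCQ with `η = (2/5)/C2`.. and `p = u_j + ν/2 ∈ [j, j+1]`: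
`[j,j+1] ⊆ [p-1,p+1]`, `|χ(x-j)| ≥ 9/10` there: `(4/5) ∫_j^(j+1) ‖f‖² ≤ C ∫_(u_j)^(u_j+ν) ‖f‖² + η ∫ ‖f‖² χ(x-j)²`. Sum over `|j| ≤ n`, `n → ∞`: `(4/5) ∫ ‖f‖² ≤ C ∫_(⋃ I_j) ‖f‖² + η C2 ∫ ‖f‖²` (the `I_j` overlap only in end points). `c = (2/5)/C`, also make it `≤ 1`. -/
def OSI_stmt : Prop := ∀ ν : ℝ, 0 < ν → ν ≤ 1 / 4 → ∃ c : ℝ, 0 < c ∧ c ≤ 1 ∧ ∀ (X : Set ℝ) (f : ℝ → ℂ) (u : ℤ → ℝ), Por ν 1 X → CX X f → (∀ j : ℤ, (j : ℝ) ≤ u j ∧ u j + ν ≤ j + 1) →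
  c * ∫ x, ‖f x‖ ^ 2 ≤ ∫ x in {x | ∃ j : ℤ, u j ≤ x ∧ x ≤ u j + ν}, ‖f x‖ ^ 2

/-- **Row STP** (medium; from FT1, SCF, PRF, BM3, MUL, OSI). One step. `c` from OSI for `ν/4`, `τ = c/16`, `K`, `φ` from BM3, `Λ ≥ 1` with `∫_(|y| ≥ νΛ/8) φ ≤ τ`. `B = Λ/s`. Let `u_j` be the holes: `[u_j, u_j + ν s] ⊆ [j s, (j+1) s]`, disjoint from `Y`. `V = ⋃_j (u_j + ν s/8, u_j + 7 ν s/8)`, `S = Vᶜ`, `w = cut φ B S`, `f' = w f ∈ CX (fat (Λ/s) X)`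
(MUL). For `x ∈ Y`: every `t ∉ S` is in some `(u_j + νs/8, u_j + 7νs/8)` and `x ∉ [u_j, u_j + νs]`: `|x - t| ≥ νs/8`, `B νs/8 = νΛ/8`: `w ≥ 1 - τ`. For `x ∈ M_j = [u_j + 3νs/8, u_j + 5νs/8]` all `t ∈ S` have `|x - t| ≥ νs/4`: `w ≤ τ`. OSI for `x ↦ f (s x) ∈ CX (dil s X)` (`Por (ν/2) (s·s⁻¹)`, hence `Por (ν/4) 1`), with the intervals
`[u_j/s + 3ν/8, u_j/s + 5ν/8]` of length `ν/4`: `∫_(⋃ M_j) ‖f‖² ≥ c ∫ ‖f‖²` (SCF). `∫ ‖f'‖² ≤ ∫ ‖f‖² - (1 - τ²) ∫_(⋃ M_j) ‖f‖² ≤ (1 - c/2) ∫ ‖f‖²`; `∫_Y ‖f'‖² ≥ (1-τ)² ∫_Y ‖f‖²`. -/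
def STP_stmt : Prop := ∀ ν : ℝ, 0 < ν → ν ≤ 1 / 4 → ∃ Λ c : ℝ, 1 ≤ Λ ∧ 0 < c ∧ c ≤ 1 ∧ ∀ (s : ℝ) (X Y : Set ℝ) (f : ℝ → ℂ), 0 < s → Por (ν / 2) s⁻¹ X → CX X f → MeasurableSet Y →
  (∀ j : ℤ, ∃ u : ℝ, j * s ≤ u ∧ u + ν * s ≤ (j + 1) * s ∧ ∀ y ∈ Y, ¬ (u ≤ y ∧ y ≤ u + ν * s)) →
    ∃ f' : ℝ → ℂ, CX (fat (Λ / s) X) f' ∧ ∫ x, ‖f' x‖ ^ 2 ≤ (1 - c / 2) * ∫ x, ‖f x‖ ^ 2 ∧ (1 - c / 16) ^ 2 * ∫ x in Y, ‖f x‖ ^ 2 ≤ ∫ x in Y, ‖f' x‖ ^ 2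

/-- **Row FPC** (medium; from FT1, SCF, PRF, STP). The fractal uncertainty principle, continuous form. `Λ`, `c` from STP, `θ = ν/(8Λ)`, `s_k = θ^k/L`, `β_k = Σ_(i<k) Λ/s_i ≤ 2 Λ θ/s_k` (`θ ≤ 1/2`; `β_(k+1) = β_k + Λ/s_k`, induction: `2Λθ/s_k + Λ/s_k ≤ 2Λ/s_k = 2 Λ θ/s_(k+1)`). Induction on `k`: there is `f_k ∈ CX (fat β_k X)` with `∫ ‖f_k‖² ≤ (1 - c/2)^k ∫ ‖f‖²` and
`(1 - c/16)^(2k) ∫_Y ‖f‖² ≤ ∫_Y ‖f_k‖²`: `fat β_k X` is `Por (ν/2) (max L (4β_k/ν))`, `4β_k/ν ≤ 8Λθ/(ν s_k) = 1/s_k` and `L ≤ 1/s_k` (PRF), so STP applies with `s = s_k` if `h ≤ s_k ≤ 1` (`PorS ν h Y` on `[j s_k, (j+1) s_k]`). `(1 - c/2) ≤ (1 - c/4)(1 - c/16)²`, so `∫_Y ‖f‖² ≤ (1 - c/4)^K ∫ ‖f‖² ≤ ε ∫ ‖f‖²` for suitable `K`; `h = s_K`. -/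
def FPC_stmt : Prop := ∀ ν L ε : ℝ, 0 < ν → ν ≤ 1 / 4 → 1 ≤ L → 0 < ε → ∃ h : ℝ, 0 < h ∧ h ≤ 1 ∧ ∀ (X Y : Set ℝ) (f : ℝ → ℂ), Por ν L X → CX X f → MeasurableSet Y → PorS ν h Y →
  ∫ x in Y, ‖f x‖ ^ 2 ≤ ε * ∫ x, ‖f x‖ ^ 2

/-- **Row FPD** (medium; from FT0, FT1, BM1, PRF, FPC). Discrete form. `κ`, `χ` from BM1, `f v = χ v · Σ_(j∈J) a_j e^(2 π i (j/4) v)`; `m ξ = Σ_j a_j κ(ξ - j/4)` is continuous with compact support and `f = fti m` (`fti (κ(· - t)) v = e^(2 π i t v) fti κ v`), `f` is integrable (`χ` is), `ft f = m` (FT0), so `f ∈ CX X`, `X = fat (1/16) (dil (1/4) J)`, which is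
`Por (ν/2) (max (L/4) (4 (1/16)/ν))` (PRF). `∫ ‖f‖² = ∫ ‖m‖² = Σ ‖a_j‖² ∫ ‖κ‖²` (the supports of the `κ(· - j/4)` are disjoint). On `Y ⊆ [0,1]`: `|χ| ≥ 9/10`. FPC with `ν/2`, `max 1 (max (L/4) (1/(4ν)))`, `ε' = (4/5) ε / ∫ ‖κ‖²` (`PorS` for `ν` implies `PorS` for `ν/2`). -/
def FPD_stmt : Prop := ∀ ν L ε : ℝ, 0 < ν → ν ≤ 1 / 4 → 0 < L → 0 < ε → ∃ h : ℝ, 0 < h ∧ h ≤ 1 ∧ ∀ (J : Finset ℤ) (Y : Set ℝ) (a : ℤ → ℂ), Por ν L {x : ℝ | ∃ j ∈ J, x = (j : ℝ)} → MeasurableSet Y → Y ⊆ Icc 0 1 → PorS ν h Y →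
  ∫ v in Y, ‖∑ j ∈ J, a j * Complex.exp (((Real.pi * j * v / 2 : ℝ) : ℂ) * Complex.I)‖ ^ 2 ≤ ε * ∑ j ∈ J, ‖a j‖ ^ 2

end Pool.Agent.FD
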