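import Pool.Agent.helper62.HF.SpecW
import Pool.Agent.helper74.FD.SpecF

/-!
# MP_07c750 (quantum unique ergodicity, weight 10), project FD: parts G (geometry) and Q (assembly); rows `fd:XXX`

THEOREM (FD). Every quantum limit `ν` of a closed hyperbolic surface is the projection of a flow invariant probability measure `μ` for which the set of all points whose geodesic is not dense has mass at most `1/2`. Page: /team-store/H8_FD_helper74.md.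

RULES. As in `SpecF`; `import Pool.Agent.helper74.FD.SpecG`; namespace `Pool.Agent.FD`. The rows listed after `from` are hypotheses, in that order, also the (proved) ones of RS, EN, MS, QU: `(hGLC : RS.GLC_stmt)`, `(hXDS : EN.XDS_stmt)`, `(hBXM : MS.BXM_stmt)`, `(hPVG : HV.PVG_stmt)` etc.
(If you need a further proved row of RS, EN, MS, QU, add it as a hypothesis at the end and tell helper74.)
-/

set_option autoImplicit false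

open scoped MatrixGroups ContDiff Topology UpperHalfPlane ComplexConjugate
open UpperHalfPlane MeasureTheory Filter Set

namespace Pool.Agent.FD

open Pool.Agent.RS Pool.Agent.MS
open Pool.Agent.EN (XG MG mkX mkM fl pr)

/-- sets of tangent directions: subsets of `SL(2, ℝ)` invariant under `Γ` (on the left) and under `-1` -/
def Iv (Γ : Subgroup SL(2, ℝ)) (W : Set SL(2, ℝ)) : Prop := (∀ (γ : Γ) (g : SL(2, ℝ)), (γ : SL(2, ℝ)) * g ∈ W ↔ g ∈ W) ∧ ∀ g : SL(2, ℝ), -g ∈ W ↔ g ∈ W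

/-- functions of tangent directions with values in `[0, 1]` -/
structure Om (Γ : Subgroup SL(2, ℝ)) (θ : SL(2, ℝ) → ℝ) : Prop where
  inv : InvG Γ θ
  even : ∀ g, θ (-g) = θ g
  lo : ∀ g, 0 ≤ θ g
  hi : ∀ g, θ g ≤ 1

/-- all entries of `h - 1` are at most `η` -/
def near1 (η : ℝ) (h : SL(2, ℝ)) : Prop := |h.1 0 0 - 1| ≤ η ∧ |h.1 1 1 - 1| ≤ η ∧ |h.1 0 1| ≤ η ∧ |h.1 1 0| ≤ η

/-! ## Part G -/

/-- **Row DN** (medium; from EN.XDS, RS.GLC; matrices). `Γ` has no fixed point on the circle. Suppose all `g⁻¹ γ g` (`γ ∈ Γ`) are lower triangular, `[[p, 0], [q, 1/p]]`. (1) Two of them, `L`, `L'`: the commutator `L⁻¹ L'⁻¹ L L'` is `lM s` for some `s`, and `aM t * lM s * aM (-t) = lM (e^(-t) s)` (GLC), so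
`(g aM (-t))⁻¹ γ'' (g aM (-t)) = lM (e^(-t) s)` is near `1` for large `t`: `γ'' = 1` (XDS). So all the `L` commute. (2) Suppose some `L0` has `p0² ≠ 1`. Put `u = q0/(p0 - 1/p0)`, so that `lM(-u) L0 lM u` is diagonal; the `lM(-u) L lM u` commute with it, so they are diagonal. For `x ∈ SL(2,ℝ)` let `y = lM(-u) g⁻¹ x` and
`f x = (y00² + y01²)(y10² + y11²)`: continuous and `f (γ x) = f x` (the rows of `y` are multiplied by `p` and `1/p`). By cocompactness (`K` compact in `ℍ`, `{x | x • I ∈ K}` is compact by GLC) `f` is bounded; but `f (g lM u nM t) = 1 + t²`: contradiction. (3) If all `p² = 1`: `f x = y00² + y01²`, `y = g⁻¹ x`, is invariant, and `f (g aM t) = e^t` is unbounded. -/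
def DN_stmt : Prop := ∀ (Γ : Subgroup SL(2, ℝ)) (g : SL(2, ℝ)), QU.SurfaceGroup Γ → ∃ γ : Γ, (g⁻¹ * (γ : SL(2, ℝ)) * g).1 0 1 ≠ 0

/-- **Row DB** (medium; from DN, RS.GLC). `h ∈ W`. For every `n : ℕ` cocompactness gives `γ_n`, `γ_n (h aM (-n)) =: h_n` in the compact set `{x | x • I ∈ K}` (GLC); a subsequence converges to `h∞`. By DN for `g` there is `γ` with `(g⁻¹ γ g)01 ≠ 0`; if `(h∞⁻¹ g)11 = 0` then `(h∞⁻¹ g)10 ≠ 0` (determinant) and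
`(h∞⁻¹ γ g)11 = ((h∞⁻¹ g)(g⁻¹ γ g))11 = (h∞⁻¹ g)10 (g⁻¹ γ g)01 ≠ 0`. So for `g' = g` or `g' = γ g`: `(h∞⁻¹ g')11 ≠ 0`, hence `m_n = h_n⁻¹ g'` has `(m_n)11 → ≠ 0` along the subsequence and `x_n = (m_n)01/(m_n)11` is bounded; with `σ` = the sign of `(m_n)11`, `m_n = σ nM x_n * lM s_n * aM t_n` for some `s_n`, `t_n`
(`e^(-t_n/2) = |(m_n)11|`). `g' = h_n m_n = γ_n h aM (-n) σ nM x_n lM s_n aM t_n = σ γ_n h nM (e^(-n) x_n) aM (-n) lM s_n aM t_n` (GLC: `aM (-n) nM x = nM (e^(-n) x) aM (-n)`). As `e^(-n) x_n → 0`, `h nM (e^(-n) x_n) ∈ W` for some `n`, i.e. `g' (lM s_n aM t_n)⁻¹ aM n ∈ W` (invariance under `Γ` and `-1`),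
and `(lM s_n aM t_n)⁻¹ aM n = aM (-t_n) lM (-s_n) aM n = lM (e^(t_n) (-s_n)) aM (n - t_n)` (GLC: `lM u aM t = aM t lM (e^t u)`, so `aM t lM v = lM (e^(-t) v) aM t`). -/
def DB_stmt : Prop := ∀ (Γ : Subgroup SL(2, ℝ)) (W : Set SL(2, ℝ)) (g : SL(2, ℝ)), QU.SurfaceGroup Γ → IsOpen W → W.Nonempty → Iv Γ W → ∃ s t : ℝ, g * lM s * aM t ∈ W

/-- **Row DEN** (medium; from DB, RS.GLC). Step 1. `K' = {x | x • I ∈ K}` compact, `Γ K' = SL(2,ℝ)`. For `g0 ∈ K'` DB gives `s`, `t` with `g0 lM s aM t ∈ W`; `W` is open and `(g', s') ↦ g' lM s' aM t` is continuous: there are a neighbourhood `N` of `g0` and `ρ > 0` with `g' lM s' aM t ∈ W` for `g' ∈ N`, `|s' - s| ≤ ρ`. Finitely many `N` cover `K'`: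
there are `W1 ≥ 0`, `ρ0 > 0` such that for all `g0 ∈ K'` there are `|s|, |t| ≤ W1` with `g0 lM s' aM t ∈ W` for `|s' - s| ≤ ρ0`; by invariance this holds for all `g0 ∈ SL(2,ℝ)`. Step 2. `S ≥ W1` with `e^(-S) W1 ≤ 1/4`. Given `g`: `s`, `t` for `g0 = g lM(1/2) aM S`: `g lM(1/2 + e^(-S) w) aM (S + t) = g lM(1/2) aM S lM w aM t` (GLC), in `W` for
`|w - s| ≤ ρ0`. `v0 = 1/2 + e^(-S) s ∈ [1/4, 3/4]`, `c = min (1/4) (e^(-S) ρ0)`, `T0 = S + W1`. -/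
def DEN_stmt : Prop := ∀ (Γ : Subgroup SL(2, ℝ)) (W : Set SL(2, ℝ)), QU.SurfaceGroup Γ → IsOpen W → W.Nonempty → Iv Γ W → ∃ T0 c : ℝ, 0 ≤ T0 ∧ 0 < c ∧ c ≤ 1 / 4 ∧
  ∀ g : SL(2, ℝ), ∃ t v0 : ℝ, 0 ≤ t ∧ t ≤ T0 ∧ c ≤ v0 ∧ v0 ≤ 1 - c ∧ ∀ v, |v - v0| ≤ c → g * lM v * aM t ∈ W

/-- **Row DES** (short-medium; from DEN, RS.GLC). The stable version. `w = kM (π/2) = [[0,1],[-1,0]]`: `w⁻¹ lM v w = nM (-v)`, `w⁻¹ aM t w = aM (-t)`. `g nM v aM (-t) = (g nM 1 w⁻¹) lM (1 - v) aM t w`. DEN for the open invariant set `W' = {h | h w ∈ W}`; `v0` becomes `1 - v0`. -/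
def DES_stmt : Prop := ∀ (Γ : Subgroup SL(2, ℝ)) (W : Set SL(2, ℝ)), QU.SurfaceGroup Γ → IsOpen W → W.Nonempty → Iv Γ W → ∃ T0 c : ℝ, 0 ≤ T0 ∧ 0 < c ∧ c ≤ 1 / 4 ∧
  ∀ g : SL(2, ℝ), ∃ t v0 : ℝ, 0 ≤ t ∧ t ≤ T0 ∧ c ≤ v0 ∧ v0 ≤ 1 - c ∧ ∀ v, |v - v0| ≤ c → g * nM v * aM (-t) ∈ W

/-- **Row TRS** (short; from DEN, RS.GLC). Topological transitivity. `h0 ∈ W1`, `0 < δ` with `h0 lM u ∈ W1` for `0 ≤ u ≤ δ`, `s = -log δ`. DEN for `W2` and `g = h0 aM s`: `h0 aM s lM v aM t ∈ W2` with `0 ≤ v ≤ 1`; `h0 aM s lM v = h0 lM (δ v) aM s`. -/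
def TRS_stmt : Prop := ∀ (Γ : Subgroup SL(2, ℝ)) (W1 W2 : Set SL(2, ℝ)), QU.SurfaceGroup Γ → IsOpen W1 → W1.Nonempty → Iv Γ W1 → IsOpen W2 → W2.Nonempty → Iv Γ W2 → ∃ (h : SL(2, ℝ)) (t : ℝ), h ∈ W1 ∧ h * aM t ∈ W2

/-- **Row OME** (short-medium; from EN.XFL, EN.XTX). Urysohn. `X = XG Γ` is compact Hausdorff, `U' = mkX '' U` is open and `mkX g ∈ U' ↔ g ∈ U` (invariance). Take `g0 ∈ U` and continuous `f : X → [0,1]` with `f (mkX g0) = 1`, `f = 0` off `U'` (`exists_continuous_zero_one_of_isClosed` or similar); `θ g = max (f (mkX g)) (f (mkX (-g)))`. -/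
def OME_stmt : Prop := ∀ (Γ : Subgroup SL(2, ℝ)) (U : Set SL(2, ℝ)), QU.SurfaceGroup Γ → IsOpen U → U.Nonempty → Iv Γ U → ∃ θ : SL(2, ℝ) → ℝ, Om Γ θ ∧ (∀ g, g ∉ U → θ g = 0) ∧ ∃ g, θ g = 1

/-- **Row UCN** (short-medium; from RS.GLC). Uniform continuity. `K'` compact with `Γ K' = SL(2,ℝ)`. Otherwise there are `g_n` (in `K'` by invariance: `θ (γ g h) = θ (g h)`) and `h_n → 1` with `|θ (g_n h_n) - θ g_n| > ε`; pass to a convergent subsequence. (Or: `θ` is uniformly continuous on a compact set.) -/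
def UCN_stmt : Prop := ∀ (Γ : Subgroup SL(2, ℝ)) (θ : SL(2, ℝ) → ℝ), QU.SurfaceGroup Γ → InvG Γ θ → ∀ ε : ℝ, 0 < ε → ∃ η : ℝ, 0 < η ∧ η ≤ 1 ∧ ∀ g h : SL(2, ℝ), near1 η h → |θ (g * h) - θ g| ≤ ε

/-- **Row URY** (medium; from RS.GLC, MS.BXM). Smooth Urysohn functions. `K'` compact, `Γ K' = SL(2,ℝ)`. (1) There is `δ > 0` such that `y ∈ C1` and `bq (16δ) (16δ) (16δ) h` imply `y h ∉ C2` (otherwise `y_n ∈ C1 ∩ K'`, `h_n → 1`, `y_n h_n ∈ C2`; a limit point is in `C1 ∩ C2`). (2) `a = min a0 δ` (`a0` from BXM). Finitely many sets `{y h | bq a a a h}`,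
`y ∈ A ⊆ C1 ∩ K'`, cover the compact set `C1 ∩ K'` (each is a neighbourhood of `y`). (3) BXM for `a`, `n = 0`, `A`: `Ψ = 1` on `C1`: for `g ∈ C1` take `γ g ∈ C1 ∩ K'`, `γ g = y h`. If `Ψ g ≠ 0` then `γ g = y h` with `bq (16a) (16a) (16a) h`, so `γ g ∉ C2`. -/
def URY_stmt : Prop := ∀ (Γ : Subgroup SL(2, ℝ)) (C1 C2 : Set SL(2, ℝ)), QU.SurfaceGroup Γ → IsClosed C1 → IsClosed C2 → Disjoint C1 C2 → (∀ (γ : Γ) (g : SL(2, ℝ)), (γ : SL(2, ℝ)) * g ∈ C1 ↔ g ∈ C1) →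
  (∀ (γ : Γ) (g : SL(2, ℝ)), (γ : SL(2, ℝ)) * g ∈ C2 ↔ g ∈ C2) → ∃ (Ψ Ψa Ψn Ψl : SL(2, ℝ) → ℝ) (C : ℝ), SF Γ Ψ Ψa Ψn Ψl ∧ (∀ g, 0 ≤ Ψ g ∧ Ψ g ≤ 1) ∧ 1 ≤ C ∧ (∀ g, |Ψn g| ≤ C) ∧ (∀ g, |Ψl g| ≤ C) ∧
    (∀ g ∈ C1, Ψ g = 1) ∧ ∀ g ∈ C2, Ψ g = 0

/-- **Row CTF** (short-medium; from RS.GLC, URY). `C1 = {g | ∀ t ∈ [0, n], θ (g aM t) ≤ 1/4}`, `C2 = {g | ∃ t ∈ [0, n], 1/2 ≤ θ (g aM t)}` (closed: projection of a closed subset of `SL(2,ℝ) × [0,n]` along a compact factor, e.g. `isClosedMap_fst_of_compactSpace`/sequences), disjoint (`t = 0..n` nonempty), invariant. -/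
def CTF_stmt : Prop := ∀ (Γ : Subgroup SL(2, ℝ)) (θ : SL(2, ℝ) → ℝ) (n : ℝ), QU.SurfaceGroup Γ → Om Γ θ → 0 ≤ n → ∃ (Ψ Ψa Ψn Ψl : SL(2, ℝ) → ℝ) (C : ℝ), SF Γ Ψ Ψa Ψn Ψl ∧ (∀ g, 0 ≤ Ψ g ∧ Ψ g ≤ 1) ∧ 1 ≤ C ∧ (∀ g, |Ψn g| ≤ C) ∧ (∀ g, |Ψl g| ≤ C) ∧
  (∀ g, (∀ t ∈ Icc (0 : ℝ) n, θ (g * aM t) ≤ 1 / 4) → Ψ g = 1) ∧ ∀ g, Ψ g ≠ 0 → ∀ t ∈ Icc (0 : ℝ) n, θ (g * aM t) < 1 / 2

/-- **Row KDC** (short-medium; matrices; from RS.GLC). `k = [[a, b], [c, d]]`, `Im (k w) = Im w / |c w + d|²`, so `|c w + d| ∈ [e^(-1/4), e^(1/4)] ⊆ [0.77, 1.29]`; `|w| ≤ 1/4 + 1.29`, `|c w| ≤ 0.016`: `0.75 ≤ |d| ≤ 1.31`. `τ = -2 log |d|` (`|τ| ≤ 0.6`), `v = c/d`, `x = b/d`: `k = σ nM x aM τ lM v`, `σ` = the sign of `d` (`aM τ = diag (1/|d|, |d|)`).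
`k w = x + e^τ (lM v w)` and `Re (w/(v w + 1)) = (Re w + v |w|²)/|1 + v w|²`, `|v| |w| ≤ 0.03`, `|w|² ≤ 2.4`, `e^τ ≤ 1.8`: `|Re (k w) - x| ≤ 1.8 (|Re w| + 2 δ1 · 2.4)/0.94 ≤ 10 (|Re w| + δ1)`. -/
def KDC_stmt : Prop := ∀ (k : SL(2, ℝ)) (w : ℍ) (δ1 : ℝ), δ1 ≤ 1 / 100 → |k.1 1 0| ≤ δ1 → |w.re| ≤ 1 / 4 → |Real.log w.im| ≤ 1 / 4 → |Real.log (k • w).im| ≤ 1 / 4 →
  ∃ x τ v : ℝ, (k = nM x * aM τ * lM v ∨ k = -(nM x * aM τ * lM v)) ∧ |τ| ≤ 1 ∧ |v| ≤ 2 * δ1 ∧ |x - (k • w).re| ≤ 10 * (|w.re| + δ1)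

/-- the points whose past in the time `[1, n' - 1]` avoids `{θ > 9/16}` -/
def Dpp (θ : SL(2, ℝ) → ℝ) (n' : ℝ) : Set SL(2, ℝ) := {g | ∀ t ∈ Icc (1 : ℝ) (n' - 1), θ (g * aM (-t)) ≤ 9 / 16}

/-- **Row DPM** (short; from RS.GLC). Closed (intersection of closed sets), invariant. -/
def DPM_stmt : Prop := ∀ (Γ : Subgroup SL(2, ℝ)) (θ : SL(2, ℝ) → ℝ) (n' : ℝ), Om Γ θ → MeasurableSet (Dpp θ n') ∧ ∀ (γ : Γ) (g : SL(2, ℝ)), (γ : SL(2, ℝ)) * g ∈ Dpp θ n' ↔ g ∈ Dpp θ n'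

/-- **Row LOC** (medium; from KDC, RS.GLC). Localisation. KDC: `k = ± nM x aM τ lM v`. Let `p = nM x aM τ lM v`, `t ∈ [1, n'-1]`, `s = τ + t ∈ [0, n']`. `g nM ξ aM (-t) = g p · lM (-v) aM (-τ) nM (ξ - x) aM (-t) = g p aM (-s) · lM (-e^(-s) v) · nM (e^t (ξ - x))` (GLC). The last two factors form `q` with `near1 η q`: `|e^(-s) v| ≤ 2 δ1 ≤ η`,
`e^t |ξ - x| ≤ e^n' (ε + 10 (|w.re| + δ1)) ≤ η` (`η ≤ 1`, so also the product is `≤ η`). As `θ` is even and `θ (g k aM (-n') aM (n' - s)) < 1/2`: `θ (g nM ξ aM (-t)) ≤ θ (g p aM (-s)) + 1/16 < 9/16`. -/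
def LOC_stmt : Prop := ∀ (Γ : Subgroup SL(2, ℝ)) (θ : SL(2, ℝ) → ℝ) (η n' ε δ1 ξ : ℝ) (g k : SL(2, ℝ)) (w : ℍ), Om Γ θ → 0 < η → η ≤ 1 → (∀ g h : SL(2, ℝ), near1 η h → |θ (g * h) - θ g| ≤ 1 / 16) → 0 ≤ n' → 0 < δ1 → δ1 ≤ 1 / 100 → 2 * δ1 ≤ η →
  |k.1 1 0| ≤ δ1 → |w.re| ≤ 1 / 4 → |Real.log w.im| ≤ 1 / 4 → |(k • w).re - ξ| ≤ ε → |Real.log (k • w).im| ≤ 1 / 4 → Real.exp n' * (ε + 10 * (|w.re| + δ1)) ≤ η →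
    (∀ t ∈ Icc (0 : ℝ) n', θ (g * k * aM (-n') * aM t) < 1 / 2) → g * nM ξ ∈ Dpp θ n'

/-- **Row JPO** (medium; from RS.GLC). Porosity of the stable set. `W = {θ > 3/4}`; the hypotheses `(T0, c)` are the conclusion of DES for `W`. `x = jε`, `|x| ≤ 1`, `|l u| ≤ l`: `q = aM t nM (-x) lM (l u) nM x aM (-t)`, `nM (-x) lM m nM x = [[1 - x m, -x² m], [m, 1 + x m]]`, so `near1 (e^n' l) q` for `0 ≤ t ≤ n'`, and `e^n' l ≤ η`. So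
(A) for `j ∈ J`, `t ∈ [1, n' - 1]`: `θ (g nM (jε) aM (-t)) ≤ 9/16 + 1/16 < 3/4`. Let `[a, b]`, `ℓ = b - a ≥ L = 2 e^(1+T0)/η ..`: precisely `L ε ≥ e^(-(n' - 1 - T0))`; `d = ℓ ε`. Case 1: `d ≤ e⁻¹`: `s = -log d ∈ [1, n' - 1 - T0]`. DES at `g nM (aε) aM (-s)`: `g nM (aε) aM (-s) nM v aM (-t) = g nM (aε + d v) aM (-(s + t))` is in `W` for `|v - v0| ≤ c`, and
`s + t ∈ [1, n' - 1]`: by (A) there is no `j ∈ J` in `a + ℓ [v0 - c, v0 + c]`: a hole of length `2cℓ`. Case 2: `e⁻¹ < d ≤ 4`: Case 1 for the subinterval of length `e⁻¹/ε`: a hole of length `2c e⁻¹/ε ≥ 2c e⁻¹ ℓ/4 ≥ (c/6) ℓ` (`e ≤ 3`). Case 3: `d > 4`: `J ⊆ [-1/(2ε)·.., ..]`: `|j| ε ≤ 1/2 `, the part of `[a,b]` on one side of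
`[-1/(2ε), 1/(2ε)]` has length `≥ (ℓ - 1/ε)/2 ≥ 3ℓ/8`, it contains a closed interval of length `ℓ/4` disjoint from `J`. -/
def JPO_stmt : Prop := ∀ (Γ : Subgroup SL(2, ℝ)) (θ : SL(2, ℝ) → ℝ) (η T0 c n' ε l L : ℝ) (g : SL(2, ℝ)) (J : Finset ℤ), Om Γ θ → 0 < η → η ≤ 1 → (∀ g h : SL(2, ℝ), near1 η h → |θ (g * h) - θ g| ≤ 1 / 16) → 0 ≤ T0 → 0 < c → c ≤ 1 / 4 →
  (∀ g : SL(2, ℝ), ∃ t v0 : ℝ, 0 ≤ t ∧ t ≤ T0 ∧ c ≤ v0 ∧ v0 ≤ 1 - c ∧ ∀ v, |v - v0| ≤ c → 3 / 4 < θ (g * nM v * aM (-t))) →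
  T0 + 2 ≤ n' → 0 < ε → 0 ≤ l → Real.exp n' * l ≤ η → 0 < L → Real.exp (1 + T0 - n') ≤ L * ε →
  (∀ j ∈ J, |(j : ℝ)| * ε ≤ 1 / 2 ∧ ∃ u ∈ Icc (0 : ℝ) 1, g * lM (l * u) * nM (j * ε) ∈ Dpp θ n') → Por (c / 6) L {x : ℝ | ∃ j ∈ J, x = (j : ℝ)}

/-- **Row YPO** (short-medium; from RS.GLC). Porosity of the unstable set. The hypothesis is the conclusion of DEN for `W = {θ > 3/4}`. `[a, b]`, `e^(T0-n) ≤ d = b - a ≤ 1`, `s = -log d ∈ [0, n - T0]`; DEN at `g lM a aM s`: `g lM a aM s lM v aM t = g lM (a + d v) aM (s + t)` is in `W` for `|v - v0| ≤ c`, `s + t ∈ [0, n]`: no `v' = a + d v` in `Y`. -/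
def YPO_stmt : Prop := ∀ (Γ : Subgroup SL(2, ℝ)) (θ Ψ : SL(2, ℝ) → ℝ) (T0 c n : ℝ) (g : SL(2, ℝ)), Om Γ θ → 0 ≤ T0 → 0 < c → c ≤ 1 / 4 →
  (∀ g : SL(2, ℝ), ∃ t v0 : ℝ, 0 ≤ t ∧ t ≤ T0 ∧ c ≤ v0 ∧ v0 ≤ 1 - c ∧ ∀ v, |v - v0| ≤ c → 3 / 4 < θ (g * lM v * aM t)) → T0 ≤ n →
  (∀ g, Ψ g ≠ 0 → ∀ t ∈ Icc (0 : ℝ) n, θ (g * aM t) < 1 / 2) → PorS c (Real.exp (T0 - n)) (Icc (0 : ℝ) 1 ∩ {v | g * lM v ∈ {g | Ψ g ≠ 0}})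

/-! ## Part Q -/

/-- **Row MNF** (medium; from FPD, DEN, DES, UCN, CTF, DPM, LOC, JPO, YPO, HV.PVG, RS.GLC). The main estimate. `W = {θ > 3/4}` is open, nonempty, `Iv`. `(T0, c)` from DEN and from DES (take the larger `T0` and the smaller `c`: monotone), `η` from UCN for `1/16`, `K` from PVG. `ν = c/6` (`≤ 1/4`), `L = 2 e^(1+T0)/η`, `Q = δ²/128`. FPD for `ν`, `L`, `Q` gives `h`;
`n ≥ 0` with `T0 ≤ n`, `e^(T0-n) ≤ h`. CTF for `n`: `Ψ`, `C1`. `n'` so large that `n' ≥ T0 + 2`, `lam := (π/(2η)) e^n' ≥ 2 K C1/δ` and `lam ≥ π` ; `ε = π/(4 lam) = η e^(-n')/2 ≤ 1/4`. CTF for `n'`: `Ψ'`, `C2`. `s ≥ 0` with `K C2 e^(-s) ≤ δ/2` and `e^(-s) ≤ η/20`. `δ1 = min (1/100) (η e^(-n')/100)`, `l0 = η e^(-n')`, `J0 = ⌈1/(4ε)⌉₊`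
(`1/4 ≤ J0 ε ≤ 1/4 + ε ≤ 1/2`), `Dp = Dpp θ n'` (DPM). `hloc`: LOC with `ξ = jε`; `Ψ' (g k aM (-n')) ≠ 0` gives its last hypothesis; `e^n' (ε + 10 (e^(-n'-s)/4 + δ1)) ≤ η/2 + η/8 + η/10 ≤ η`. Leaf inequality: for `l ≤ l0`, `g`, `g'`, `J`: JPO (`e^n' l ≤ η`, `L ε = e^(1+T0-n')`) and YPO for `g'`, FPD (`PorS c` implies `PorS (c/6)`; the set is measurable:
`Ψ` is continuous). `128 Q ≤ δ²`. PVG gives `r2`. `Ψ = Ψ' = 1` where `θ (g aM t) = 0` for all `t`. -/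
def MNF_stmt : Prop := ∀ (Γ : Subgroup SL(2, ℝ)) (F : Set ℍ) (β α : ℝ → ℝ) (θ : SL(2, ℝ) → ℝ), QU.SurfaceGroup Γ → QU.NiceDom Γ F → BB (1 / 4) β → BA (1 / 8) α → Om Γ θ → (∃ g, θ g = 1) → ∀ δ : ℝ, 0 < δ → δ ≤ 1 / 100 →
  ∃ (Ψ Ψ' : SL(2, ℝ) → ℝ) (r2 : ℝ), InvG Γ Ψ ∧ InvG Γ Ψ' ∧ (∀ g, 0 ≤ Ψ g ∧ Ψ g ≤ 1) ∧ (∀ g, 0 ≤ Ψ' g ∧ Ψ' g ≤ 1) ∧ (∀ g, (∀ t : ℝ, θ (g * aM t) = 0) → Ψ g = 1 ∧ Ψ' g = 1) ∧ 1 ≤ r2 ∧
    ∀ (r m t : ℝ) (φ : ℍ → ℂ), r2 ≤ r → EigL Γ (1 / 4 + r ^ 2) φ → nn F φ = 1 → 0 ≤ m → m ≤ 2 → Real.sqrt (Real.log r) ≤ t → t ≤ Real.log r - Real.sqrt (Real.log r) →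
      (m - 4 * δ) * qn F (pc β α) r φ < iR F (fun g => (Ψ (g * aM t) + Ψ' (g * aM t)) * ‖pf β α r φ g‖ ^ 2) → m ≤ 1 + 10 * δ + 100 * Real.sqrt δ

/-- **Row FDH** (short-medium; from MNF, OME, MS: MU, STB, EN.XFL, EN.XTX, QU: DOM, DOB; compare helper39/MS/DU1.lean, helper62/ED/Core.lean). Nice domain `F₀` (integrals of invariant functions agree). `β`, `α` from STB, `μ` from MU. Given `U` (open in `X`, nonempty, `mkX g ∈ U ↔ mkX (-g) ∈ U`): `θ` from OME for `mkX⁻¹ U`; `K_U = {x | ∀ t, fl t x ∉ U}` is closed;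
`m = 2 μ.real K_U`. For `0 < δ ≤ 1/100` MNF: `Ψ`, `Ψ'` descend to continuous functions on `X` which are `1` on `K_U` (`mkX g ∈ K_U` gives `θ (g aM t) = 0` for all `t`), so `∫ (Ψ + Ψ') dμ ≥ 2 μ.real K_U > m - 4δ`; MU gives a large `k`, `t` with `(m - 4δ) qn < iR ..`, so `m ≤ 1 + 10 δ + 100 √δ`. `δ → 0`. -/
def FDH_stmt : Prop := ∀ (Γ : Subgroup SL(2, ℝ)) (F : Set ℍ) (r : ℕ → ℝ) (φ : ℕ → ℍ → ℂ) (ν : Measure (MG Γ)), QU.SurfaceGroup Γ → IsFundamentalDomain Γ F (volume : Measure ℍ) → Tendsto r atTop atTop → (∀ k, Eig Γ (r k) (φ k)) →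
  (∀ k, ∫ z in F, ‖φ k z‖ ^ 2 = 1) → IsFiniteMeasure ν → (∀ V : MG Γ → ℝ, Continuous V → Tendsto (fun k => ∫ z in F, V (mkM Γ z) * ‖φ k z‖ ^ 2) atTop (𝓝 (∫ x, V x ∂ν))) →
  ∃ μ : Measure (XG Γ), IsProbabilityMeasure μ ∧ (∀ t, μ.map (fl Γ t) = μ) ∧ μ.map (pr Γ) = ν ∧
    ∀ U : Set (XG Γ), IsOpen U → U.Nonempty → (∀ g, mkX Γ (-g) ∈ U ↔ mkX Γ g ∈ U) → μ {x | ∀ t : ℝ, fl Γ t x ∉ U} ≤ 1 / 2

/-- the points of `X` (unit tangent vectors; `g` and `-g` are the same vector) whose whole geodesic is not dense in the unit tangent bundle -/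
def ND (Γ : Subgroup SL(2, ℝ)) : Set (XG Γ) := {x | ∃ g : SL(2, ℝ), x = mkX Γ g ∧ ¬ Dense {y : XG Γ | ∃ t : ℝ, y = mkX Γ (g * aM t) ∨ y = mkX Γ (-(g * aM t))}}

/-- **Row FDD** (medium; from TRS, EN.XFL, EN.XTX). `X` is compact, Hausdorff, second countable: a countable basis `V_i` of nonempty open sets; `U_i = {mkX g | mkX g ∈ V_i ∨ mkX (-g) ∈ V_i}` is open, nonempty, symmetric, `K_i = {x | ∀ t, fl t x ∉ U_i}` closed. `ND ⊆ ⋃ K_i` (if the orbit of `± g` misses a nonempty open set it misses some `V_i`, then `mkX g ∈ K_i`), and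
`K_i ⊆ ND`, so `ND = ⋃ K_i` is measurable. For finitely many `i ≤ n` there is one open nonempty symmetric `U` with `K_0 ∪ .. ∪ K_n ⊆ K_U` (induction: given `U`, `U'`, TRS for their preimages: `h`, `t` with `mkX h ∈ U`, `mkX (h aM t) ∈ U'`; `U'' = U ∩ {x | fl t x ∈ U'}` is open, nonempty, symmetric; `K_U ⊆ K_U''`, and `x ∈ K_U'` implies
`fl (s + t) x ∉ U'`, so `fl s x ∉ U''`). So `μ (K_0 ∪ .. ∪ K_n) ≤ 1/2` for all `n`, hence `μ ND ≤ 1/2` (continuity from below). -/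
def FDD_stmt : Prop := ∀ (Γ : Subgroup SL(2, ℝ)) (μ : Measure (XG Γ)), QU.SurfaceGroup Γ → IsProbabilityMeasure μ →
  (∀ U : Set (XG Γ), IsOpen U → U.Nonempty → (∀ g, mkX Γ (-g) ∈ U ↔ mkX Γ g ∈ U) → μ {x | ∀ t : ℝ, fl Γ t x ∉ U} ≤ 1 / 2) → MeasurableSet (ND Γ) ∧ μ (ND Γ) ≤ 1 / 2

end Pool.Agent.FD
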